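import Pool.Agent.H15.G.R_seed8.TH760.EN.EndE
import Pool.Agent.H15.G.R_seed8.TH641.NW.Win
import Pool.Agent.H15.G.R_seed8.TH641.NW.Cnt2
import Pool.Agent.H15.G.R_seed8.TH641.NW.Inst

/-! Emptiness for any `a` points and `c` points with multiplicities `v`, `n = 4 a + c`, in the plane. -/

namespace Pool.Agent.X167.NU

open Finset Pool.Agent.TH176.Nag Pool.Agent.TH603.Sur Pool.Agent.TH603.Cut Pool.Agent.TH181.NagM
open Pool.Agent.TH648.SH Pool.Agent.TH760.EN Filter Topology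

/-- the small triangle, emptiness; `V` is the sum of the multiplicities -/
def QE (c V : ℕ) : Set (ℤ × ℤ) :=
  {p | 0 ≤ p.1 ∧ 0 ≤ p.2 ∧ 4 * p.1 + (c : ℤ) * p.2 < 2 * (V : ℤ)}

/-- the right triangle of slope `a + c / 4` -/
def UU (a c Z V : ℕ) : Set (ℤ × ℤ) :=
  {p | 0 ≤ p.1 ∧ 0 ≤ p.2 ∧ 4 * p.1 + (4 * (a : ℤ) + c) * p.2 < 4 * (Z : ℤ) + 2 * (V : ℤ)}

theorem UU_finite {a c Z V : ℕ} (h : 1 ≤ 4 * a + c) : (UU a c Z V).Finite := by
  obtain ⟨N, hN⟩ : ∃ N : ℤ, N = 4 * (Z : ℤ) + 2 * (V : ℤ) := ⟨_, rfl⟩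
  apply Set.Finite.subset (Set.finite_Icc ((0, 0) : ℤ × ℤ) (N, N))
  rintro ⟨x, y⟩ ⟨h1, h2, h3⟩
  simp only at h1 h2 h3
  rw [← hN] at h3
  have h4 : (1 : ℤ) ≤ 4 * (a : ℤ) + c := by exact_mod_cast h
  have h5 : y ≤ (4 * (a : ℤ) + c) * y := by nlinarith
  rw [Set.mem_Icc, Prod.mk_le_mk, Prod.mk_le_mk]
  exact ⟨⟨h1, h2⟩, by linarith, by linarith⟩

theorem Emp_UU {a c V : ℕ} (u : Fin a → ℕ) (hac : 1 ≤ 4 * a + c) {v : Fin c → ℕ} (h : Emp v (QE c V)) :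
    Emp (Sum.elim u v) (UU a c (∑ i, u i) V) := by
  obtain ⟨Z, hZ⟩ : ∃ Z, Z = ∑ i, u i := ⟨_, rfl⟩
  rw [← hZ]
  have hfin := UU_finite (Z := Z) (V := V) hac
  have e1 : UU a c Z V = {p | p ∈ UU a c Z V ∧ p.1 + (a : ℤ) * p.2 < Z} ∪
      {p | p ∈ UU a c Z V ∧ (Z : ℤ) ≤ p.1 + (a : ℤ) * p.2} := by
    ext p
    constructor
    · intro hp
      rcases lt_or_ge (p.1 + (a : ℤ) * p.2) (Z : ℤ) with h1 | h1
      · exact Or.inl ⟨hp, h1⟩
      · exact Or.inr ⟨hp, h1⟩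
    · rintro (hp | hp) <;> exact hp.1
  rw [e1]
  refine Pool.Agent.TH698.NagT3.Emp_cut (hfin.subset fun p hp => hp.1)
    (hfin.subset fun p hp => hp.1) (fun p hp => ⟨hp.1.1, hp.1.2.1⟩)
    (fun p hp => ⟨hp.1.1, hp.1.2.1⟩) 1 a ?_ ?_ ?_
  · rintro p ⟨_, h1⟩ q ⟨_, h2⟩
    linarith
  · refine (Emp_rows u 0).mono ?_
    rintro ⟨x, y⟩ ⟨⟨h1, h2, h3⟩, h4⟩
    simp only at h1 h2 h3 h4
    refine ⟨h2, h1, ?_⟩
    simp only [zero_add]
    obtain ⟨k, rfl⟩ := Int.eq_ofNat_of_zero_le h2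
    simp only [Int.toNat_natCast]
    have h5 : ∑ i, u i ≤ ∑ i, (u i - k) + a * k := by
      have : a * k = ∑ _i : Fin a, k := by simp
      rw [this, ← sum_add_distrib]
      exact sum_le_sum fun i _ => by omega
    rw [← hZ] at h5
    have h6 : (Z : ℤ) ≤ ((∑ i, (u i - k) : ℕ) : ℤ) + a * k := by exact_mod_cast h5
    linarith
  · refine h.comap 1 a 0 1 (-(Z : ℤ)) 0 (by norm_num) ?_
    rintro ⟨x, y⟩ ⟨⟨h1, h2, h3⟩, h4⟩
    simp only at h1 h2 h3 h4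
    refine ⟨by simp only; linarith, by simp only; linarith, ?_⟩
    simp only
    linarith

theorem Emp_RegU {a c V Z : ℕ} {w : Fin a ⊕ Fin c → ℕ} (h : Emp w (UU a c Z V))
    {α β ν : ℝ} (hν : 4 * ν = 4 * a + c)
    (hβ : β - α < Z + (V : ℝ) / 2) :
    Emp w (Reg α β 0 ν) := by
  refine h.comap 1 0 0 1 (-⌈α⌉) 0 (by norm_num) ?_
  rintro ⟨x, y⟩ ⟨h1, h2, h3⟩
  simp only [zero_mul, add_zero] at h1 h2 h3
  have h4 : ⌈α⌉ ≤ x := Int.ceil_le.2 h2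
  refine ⟨by simp only; linarith, by simp only; linarith, ?_⟩
  simp only
  have h5 := Int.le_ceil α
  have h6 : ((4 * (1 * x + 0 * y + -⌈α⌉) + (4 * (a : ℤ) + c) * (0 * x + 1 * y + 0) : ℤ) : ℝ) <
      ((4 * (Z : ℤ) + 2 * (V : ℤ) : ℤ) : ℝ) := by
    push_cast
    have h7 : (4 * (a : ℝ) + c) * y = 4 * (ν * y) := by rw [← hν]; ring
    nlinarith
  exact_mod_cast h6

/-- **emptiness**, condition `√n d < 2 Σ u + V` -/
theorem leafE_P {a c V n d : ℕ} {v : Fin c → ℕ} (h : Emp v (QE c V)) (u : Fin a → ℕ) (hn : n = 4 * a + c)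
    (hn36 : 36 ≤ n) (hlt : √(n : ℝ) * d < 2 * ((∑ i, u i : ℕ) : ℝ) + V) :
    Emp (Sum.elim u v) (TZ d) := by
  have hnR : (36 : ℝ) ≤ n := by exact_mod_cast hn36
  have hn4 : (n : ℝ) = 4 * a + c := by rw [hn]; push_cast; ring
  obtain ⟨Z, hZ⟩ : ∃ Z, Z = ∑ i, u i := ⟨_, rfl⟩
  have hU := Emp_UU u (by omega) h
  rw [← hZ] at hlt hU
  obtain ⟨s, hs⟩ : ∃ s : ℝ, s = √(n : ℝ) := ⟨_, rfl⟩
  have hs2 : s * s = n := by rw [hs]; exact Real.mul_self_sqrt (by linarith)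
  have hs6 : 6 ≤ s := by
    rw [hs]
    exact Real.le_sqrt_of_sq_le (by linarith)
  rw [← hs] at hlt
  have hs0 : 0 < s := by linarith
  obtain ⟨r, hr⟩ : ∃ r : ℝ, r = s / 2 := ⟨_, rfl⟩
  have hr3 : 3 ≤ r := by linarith
  have hr0 : 0 < r := by linarith
  have hr2 : 4 * r ^ 2 = 4 * a + c := by rw [hr, ← hn4, ← hs2]; ring
  obtain ⟨c', hc1, hc2⟩ : ∃ c' : ℝ, (d : ℝ) < c' ∧ c' < (2 * (Z : ℝ) + V) / s := by
    apply _root_.exists_between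
    rw [lt_div_iff₀ hs0]
    linarith
  rw [lt_div_iff₀ hs0] at hc2
  have hd0 : (0 : ℝ) ≤ d := Nat.cast_nonneg d
  have hEP : EP (Sum.elim u v) c' 0 (r ^ 2) := by
    refine ⟨by positivity, fun E hE0 hE α => ?_⟩
    rw [zero_add, Real.sqrt_sq hr0.le]
    refine Emp_RegU hU hr2 ?_
    have h1 : E * r < c' * r := mul_lt_mul_of_pos_right hE hr0
    have h2 : c' * r = c' * s / 2 := by rw [hr]; ring
    linarith
  obtain ⟨k, τ, hk, h0, h1⟩ := exists_tau r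
  have h2 := (Mv_tau hr3 k hk).closed EP_closed hEP
  apply Pool.Agent.TH603.EL.Emp_key h0 h1
  rcases Nat.eq_zero_or_pos d with hd | hd
  · subst hd
    obtain ⟨c2, hc1', hc2'⟩ : ∃ c2 : ℝ, 0 < c2 ∧ c2 < c' 
      := _root_.exists_between (by simpa using hc1)
    have h3 := h2.2 c2 hc1' hc2' 0
    refine h3.mono ?_
    rintro m' ⟨k1, k2, k3⟩
    refine ⟨k1, ?_, ?_⟩
    · simpa using k2
    · have : 0 ≤ c2 * √(3 * (1 + τ) + 3 * (2 - τ)) := by positivity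
      simp only [Nat.cast_zero, zero_mul] at k3
      linarith
  · have hd' : (0 : ℝ) < d := by exact_mod_cast hd
    have h3 := h2.2 d hd' hc1 (-((d : ℝ) * (1 + τ)))
    have e1 : 3 * (1 + τ) + 3 * (2 - τ) = (3 : ℝ) ^ 2 := by ring
    rw [e1, Real.sqrt_sq (by norm_num)] at h3
    have e2 : -((d : ℝ) * (1 + τ)) + d * 3 = d * (2 - τ) := by ring
    rw [e2] at h3
    exact h3

/-- **emptiness**, the sharper window -/
theorem leafE_Q {a c V n d : ℕ} {v : Fin c → ℕ} (h : Emp v (QE c V)) (u : Fin a → ℕ) (hn : n = 4 * a + c)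
    (hn36 : 36 ≤ n) (hd : √(n : ℝ) * (n + 10) ≤ 16 * d)
    (hQ : 2 * √(n : ℝ) * (d + 3 / 2) + 2 * √(n : ℝ) / 3 + 9 / 2 + ((n % 4 : ℕ) : ℝ) <
      n / 2 + 4 * ((∑ i, u i : ℕ) : ℝ) + 2 * V) :
    Emp (Sum.elim u v) (TZ d) := by
  classical
  have hnR : (36 : ℝ) ≤ n := by exact_mod_cast hn36
  have hn4 : (n : ℝ) = 4 * a + c := by rw [hn]; push_cast; ring
  obtain ⟨Z, hZ⟩ : ∃ Z, Z = ∑ i, u i := ⟨_, rfl⟩
  have hU := Emp_UU u (by omega) h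
  rw [← hZ] at hQ hU
  obtain ⟨s, hs⟩ : ∃ s : ℝ, s = √(n : ℝ) := ⟨_, rfl⟩
  have hss : s * s = n := by rw [hs]; exact Real.mul_self_sqrt (by linarith)
  have hs6 : 6 ≤ s := by
    rw [hs]
    exact Real.le_sqrt_of_sq_le (by linarith)
  rw [← hs] at hQ hd
  have hs0 : 0 < s := by linarith
  obtain ⟨r, hr⟩ : ∃ r, r = n % 4 := ⟨_, rfl⟩
  rw [← hr] at hQ
  have hσ : (((n / 4 - 1 : ℕ)) : ℝ) = n / 4 - r / 4 - 1 := by
    have h1 : 4 * (n / 4 - 1) + r + 4 = n := by omega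
    have h2 : 4 * (((n / 4 - 1 : ℕ)) : ℝ) + r + 4 = n := by exact_mod_cast h1
    linarith
  have hr0 : (0 : ℝ) ≤ r := Nat.cast_nonneg r
  obtain ⟨J, hJ⟩ : ∃ J : ℕ, J = ⌊2 * (d : ℝ) / s⌋₊ := ⟨_, rfl⟩
  have hd0 : (0 : ℝ) ≤ d := Nat.cast_nonneg d
  have hJ1 : s * J ≤ 2 * d := by
    have := Nat.floor_le (show 0 ≤ 2 * (d : ℝ) / s by positivity)
    rw [← hJ, le_div_iff₀ hs0] at this
    linarith
  have hJ2 : 2 * (d : ℝ) < s * (J + 1) := by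
    have := Nat.lt_floor_add_one (2 * (d : ℝ) / s)
    rw [← hJ, div_lt_iff₀ hs0] at this
    linarith
  have hJ3 : (n : ℝ) / 8 + 1 / 4 ≤ J := by
    have h1 : s * ((n + 10) / 8) < s * (J + 1) := by linarith
    have := lt_of_mul_lt_mul_left h1 hs0.le
    linarith
  have eK : (3 / 2 * s) ^ 2 = 9 / 4 * n := by rw [mul_pow, sq s, hss]; ring
  refine Pool.Agent.TH641.NW.Emp_pl Pool.Agent.TH641.NW.keyE (K := 3 / 2 * s) (by positivity)
    (n' := (n : ℝ) / 4) (Z' := (4 * Z + 2 * V + 3) / 4) (σ := n / 4 - 1) (J := J)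
    (ρ := fun j => if j < J then (4 * Z + 2 * V - 1 - r - n * j) / 4 else
      if j = J then (3 * d - 3 / 2 * s * J) ^ 2 / 18 + 11 / 18 * (3 * d - 3 / 2 * s * J) + 17 / 8
      else 0) ?_ ?_ ?_ ?_ ?_ ?_
  · rw [hσ]; linarith
  · intro x j B hB
    split_ifs with h2 h3
    · have h3 : (j : ℝ) + 1 ≤ J := by exact_mod_cast h2
      have h4 := mul_le_mul_of_nonneg_left h3 (show 0 ≤ 3 / 2 * s by positivity)
      have h5 := Pool.Agent.TH641.NW.up_row2 (x := x) (by linarith) (by linarith) hB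
      rw [Pool.Agent.TH641.NW.ell_row, eK] at h5
      have h6 : ((4 * (B.card : ℤ) : ℤ) : ℝ) < ((4 * (Z : ℤ) + 2 * V - r - n * j : ℤ) : ℝ) := by
        push_cast
        linarith
      have h7 : 4 * (B.card : ℤ) < 4 * (Z : ℤ) + 2 * V - r - n * j := by exact_mod_cast h6
      have h8 : 4 * (B.card : ℤ) ≤ 4 * (Z : ℤ) + 2 * V - 1 - r - n * j := by omega
      have h9 : 4 * (B.card : ℝ) ≤ 4 * (Z : ℝ) + 2 * V - 1 - r - n * j := by exact_mod_cast h8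
      linarith
    · subst h3
      exact Pool.Agent.TH641.NW.up_top (by linarith) (by linarith) (by linarith) hB
    · have h3 : (J : ℝ) + 1 ≤ j := by exact_mod_cast (by omega : J + 1 ≤ j)
      have h4 := mul_le_mul_of_nonneg_left h3 hs0.le
      have h5 : B = ∅ := by
        rw [Finset.eq_empty_iff_forall_notMem]
        exact fun c hc => Pool.Agent.TH641.NW.U_empty (by linarith) (hB c hc)
      rw [h5]; simp
  · intro j hj
    simp only [if_pos hj]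
    rw [hσ]
    linarith
  · simp only [lt_irrefl, if_false, if_true]
    rw [hσ]
    obtain ⟨Y, hY⟩ : ∃ Y : ℝ, Y = 3 * d - 3 / 2 * s * J := ⟨_, rfl⟩
    have hY0 : 0 ≤ Y := by rw [hY]; linarith
    have hYK : Y < 3 / 2 * s := by rw [hY]; linarith
    rw [← hY]
    have e1 : (n : ℝ) * J = 2 * s * d - 2 * s * Y / 3 := by rw [hY, ← hss]; ring
    have h5 : 0 ≤ Y * (3 * s - Y) := mul_nonneg hY0 (by linarith)
    have h6 : (n / 4 - r / 4 - 1) * (J : ℝ) = (n * J) / 4 - r / 4 * J - J := by ring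
    rw [h6, e1]
    have h7 : 0 ≤ (r : ℝ) * J := by positivity
    linarith
  · intro j hj
    simp only [if_neg (not_lt.2 hj.le), if_neg (show ¬ j = J by omega)]
    norm_num
  · refine hU.mono ?_
    rintro ⟨p, q⟩ ⟨h1, h2, h3⟩
    simp only at h1 h2 h3
    refine ⟨h1, h2, ?_⟩
    simp only
    have h4 : ((4 * p + (4 * (a : ℤ) + c) * q : ℤ) : ℝ) < ((4 * (Z : ℤ) + 2 * (V : ℤ) : ℤ) : ℝ) := by
      push_cast
      rw [← hn4]
      linarith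
    exact_mod_cast h4

end Pool.Agent.X167.NU
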