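import Pool.Agent.H15.G.R_pool_sql_team_seeded_64922ed1.X167.NU.DL
import Pool.Agent.H15.G.R_pool_sql_team_seeded_64922ed1.X167.NU.LeafE
import Pool.Agent.H15.G.R_pool_sql_team_seeded_64922ed1.X167.NU.LeafS
import Pool.Agent.H15.G.R_seed8.TH2.NU.Crit

/-! The sign theorem for the clusters from inequalities (four corners). -/

namespace Pool.Agent.X167.NU

open Finset Pool.Agent.TH176.Nag Pool.Agent.TH603.Sur Pool.Agent.TH763.DB Pool.Agent.TH2.NU Module
  Pool.Agent.TH641.UM Pool.Agent.TH760.EN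

/-- the size of the window for emptiness -/
noncomputable def RE (n : ℕ) : ℝ :=
  max (3 * √(n : ℝ)) (n / 2 - 2 * √(n : ℝ) / 3 - 9 / 2 - ((n % 4 : ℕ) : ℝ))

/-- the size of the window for independence -/
noncomputable def RS (n : ℕ) : ℝ :=
  max (3 * √(n : ℝ)) (n / 2 - 2 * √(n : ℝ) / 3 - 1 / 2)

theorem EM {c V n d : ℕ} {VV : Multiset ℕ} (hc : VV.card = c) (h : EmpM VV (QE c V)) {M : Multiset ℕ}
    (hn : n = 4 * M.card + c) (h36 : 36 ≤ n)
    (hd : √(n : ℝ) * (n + 10) ≤ 16 * d)
    (hlt : √(n : ℝ) * (2 * d + 3) < RE n + 4 * ((M.sum : ℕ) : ℝ) + 2 * V) :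
    EmpM (M + VV) (TZ d) := by
  have hc' : VV.toList.length = c := by rw [Multiset.length_toList, hc]
  subst hc'
  have hl : M.toList.length = M.card := Multiset.length_toList M
  refine (EmpM_iff (w := Sum.elim (fun i : Fin M.toList.length => M.toList.get i)
    (fun i : Fin VV.toList.length => VV.toList.get i)) (by rw [ms_sum, ms_toList, ms_toList]) _).2 ?_
  have hsum : (∑ i : Fin M.toList.length, M.toList.get i) = M.sum := by
    rw [← ms_sum_val, ms_toList]
  have h1 : √(n : ℝ) * (2 * d + 3) - 4 * ((M.sum : ℕ) : ℝ) - 2 * V < RE n := by linarith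
  rcases lt_max_iff.1 h1 with h2 | h2
  · refine leafE_P h _ (by rw [hl]; exact hn) h36 ?_
    rw [hsum]
    linarith
  · refine leafE_Q h _ (by rw [hl]; exact hn) h36 hd ?_
    rw [hsum]
    linarith

theorem SM {b c V n d : ℕ} {VV : Multiset ℕ} (hc : VV.card = c) (h : SurM VV (QI c b V))
    {M : Multiset ℕ} (hM : ∀ x ∈ M, x = b ∨ x = b + 1) (hb1 : c * b ≤ 2 * V + c)
    (hn : n = 4 * M.card + c) (h37 : 37 ≤ n)
    (hlt : 4 * ((M.sum : ℕ) : ℝ) + 2 * V + 4 * M.card + 2 * c < √(n : ℝ) * (2 * d + 3) + RS n) :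
    SurM (M + VV) (TZ d) := by
  have hc' : VV.toList.length = c := by rw [Multiset.length_toList, hc]
  subst hc'
  have hl : M.toList.length = M.card := Multiset.length_toList M
  refine (SurM_iff (w := Sum.elim (fun i : Fin M.toList.length => M.toList.get i)
    (fun i : Fin VV.toList.length => VV.toList.get i)) (by rw [ms_sum, ms_toList, ms_toList]) _).2 ?_
  have hsum : (∑ i : Fin M.toList.length, M.toList.get i) = M.sum := by
    rw [← ms_sum_val, ms_toList]
  have hu : ∀ i : Fin M.toList.length, M.toList.get i = b ∨ M.toList.get i = b + 1 := by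
    intro i
    exact hM _ (Multiset.mem_toList.1 (List.get_mem _ _))
  have hn' : n = 4 * M.toList.length + VV.toList.length := by rw [hl]; exact hn
  obtain ⟨c, hcc⟩ : ∃ c, c = VV.toList.length := ⟨_, rfl⟩
  have hnR : (n : ℝ) = 4 * M.card + VV.toList.length := by rw [hn]; push_cast; ring
  have h1 : 4 * ((M.sum : ℕ) : ℝ) + 2 * V + 4 * M.card + 2 * VV.toList.length -
      √(n : ℝ) * (2 * d + 3) < RS n := by
    linarith
  rcases lt_max_iff.1 h1 with h2 | h2
  · refine leafS_P h hu hb1 hn' (by omega) ?_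
    rw [hsum, hl]
    linarith
  · refine leafS_Q h hu hb1 hn' h37 ?_
    rw [hsum]
    linarith

/-- the four corners -/
theorem four_corners {x0 x2 b t : ℕ} {M : Multiset ℕ} {S : Finset (ℤ × ℤ)}
    (hpos : ∀ u ∈ S, 0 ≤ u.1 ∧ 0 ≤ u.2)
    (h00 : DL (x0 • {b} + (x2 • {b + 1} + M)) S (t + x0 * ((b + 1) / 2) + x2 * ((b + 2) / 2)))
    (h01 : DL (x0 • {b} + (x2 • {b + 2} + M)) S (t + x0 * ((b + 1) / 2)))
    (h10 : DL (x0 • {b + 1} + (x2 • {b + 1} + M)) S (t + x2 * ((b + 2) / 2)))
    (h11 : DL (x0 • {b + 1} + (x2 • {b + 2} + M)) S t) :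
    DL (x0 • q4 b + (x2 • q4 (b + 1) + M)) S t := by
  have e : ∀ (A B C : Multiset ℕ), A + (B + C) = B + (A + C) := fun A B C => by abel
  rw [e] at h00 h01 h10 h11
  have g0 := DL.dbl (b := b + 1) hpos h00 h01 le_rfl
  have g1 := DL.dbl (b := b + 1) hpos h10 h11 le_rfl
  rw [e] at g0 g1
  exact DL.dbl (b := b) hpos g0 g1 le_rfl

theorem card_smul1 (a b : ℕ) : (a • ({b} : Multiset ℕ)).card = a := by simp
theorem sum_smul1 (a b : ℕ) : (a • ({b} : Multiset ℕ)).sum = a * b := by
  rw [Multiset.sum_nsmul, Multiset.sum_singleton, smul_eq_mul]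

/-- leaf `E` -/
theorem EM3 {a b c V n d y0 y1 y2 : ℕ} {VV : Multiset ℕ} (hc : VV.card = c) (h : EmpM VV (QE c V))
    (hy : y0 + y1 + y2 = a) (hn : n = 4 * a + c)
    (h36 : 36 ≤ n) (hd : √(n : ℝ) * (n + 10) ≤ 16 * d)
    (hlt : √(n : ℝ) * (2 * d + 3) < RE n + 4 * ((y0 : ℝ) * b + y1 * (b + 1) + y2 * (b + 2)) + 2 * V) :
    EmpM (y0 • {b} + (y1 • {b + 1} + (y2 • {b + 2} + VV))) (TZ d) := by
  have h1 := EM (M := y0 • {b} + (y1 • {b + 1} + y2 • {b + 2})) (c := c) (V := V) (n := n) (d := d) hc h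
    (by rw [Multiset.card_add, Multiset.card_add, card_smul1, card_smul1, card_smul1]; omega) h36 hd
    (by
      rw [Multiset.sum_add, Multiset.sum_add, sum_smul1, sum_smul1, sum_smul1]
      push_cast
      linarith)
  rwa [add_assoc, add_assoc] at h1

/-- leaf `S` -/
theorem SM2 {a b c V n d y0 y1 : ℕ} {VV : Multiset ℕ} (hc : VV.card = c) (h : SurM VV (QI c b V))
    (hy : y0 + y1 = a) (hb1 : c * b ≤ 2 * V + c)
    (hn : n = 4 * a + c) (h37 : 37 ≤ n)
    (hlt : 4 * ((y0 : ℝ) * b + y1 * (b + 1)) + 2 * V + 4 * a + 2 * c < √(n : ℝ) * (2 * d + 3) + RS n) :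
    SurM (y0 • {b} + (y1 • {b + 1} + VV)) (TZ d) := by
  have h1 := SM (M := y0 • {b} + y1 • {b + 1}) (b := b) (c := c) (V := V) (n := n) (d := d) hc h
    (by
      intro x hx
      rw [Multiset.mem_add] at hx
      rcases hx with hx | hx
      · left
        have := Multiset.mem_of_mem_nsmul hx
        simpa using this
      · right
        have := Multiset.mem_of_mem_nsmul hx
        simpa using this)
    hb1
    (by rw [Multiset.card_add, card_smul1, card_smul1]; omega) h37
    (by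
      rw [Multiset.sum_add, sum_smul1, sum_smul1, Multiset.card_add, card_smul1, card_smul1]
      have : (a : ℝ) = y0 + y1 := by rw [← hy]; push_cast; ring
      push_cast
      rw [this] at hlt
      linarith)
  rwa [add_assoc] at h1

/-- **the criterion** -/
theorem crit {a b c V n d x0 x1 x2 t : ℕ} {VV : Multiset ℕ} {X : ℝ} (hcV : VV.card = c)
    (hE : EmpM VV (QE c V)) (hS : SurM VV (QI c b V)) (hx : x0 + x1 + x2 = a)
    (hn : n = 4 * a + c) (h37 : 37 ≤ n) (hb1 : c * b ≤ 2 * V + c)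
    (hd : √(n : ℝ) * (n + 10) ≤ 16 * d)
    (hX : √(n : ℝ) * (2 * d + 3) = X + n + 2 * (x0 * (2 * b) + x1 * (2 * b + 1) + x2 * (2 * b + 2) + V))
    (ht : (TF d).card ≤ x0 * ((b + 1).choose 2 + (b + 1) / 2) + x1 * ((b + 1).choose 2 + (b + 1)) +
      x2 * ((b + 1).choose 2 + (b + 1) + (b + 2) / 2) + TH2.NU.condM VV + t)
    (h11 : (2 * x1 + c : ℝ) + X < RE n) (h00 : (2 * x1 + c : ℝ) < RS n + X)
    (h10 : x0 = 0 ∨ x2 = 0 ∨
      (∃ j ≤ x0, j * (b + 1) ≤ x0 * ((b + 2) / 2) ∧ 4 * ((x0 : ℝ) - j) + (2 * x1 + c) < RS n + X) ∨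
      (∃ j ≤ a, j * (b + 2) ≤ t + x2 * ((b + 2) / 2) ∧ X + (2 * x1 + c) + 4 * x2 < RE n + 4 * j))
    (h01 : x0 = 0 ∨ x2 = 0 ∨ ∃ p q i, p ≤ q ∧ q ≤ x0 ∧ x2 ≤ i ∧ i ≤ x1 + x2 + p ∧ 1 ≤ i ∧
      4 * (p : ℝ) + (2 * x1 + c) < RS n + X ∧ X + (4 * a + c) < RE n + (2 * x1 + 4 * (q + i)) ∧
      x2 * ((x0 + (i - x2)) * ((b + 2) / 2)) < i + x2 * ((x0 - q) * (b + 1)) + x2 * t) :
    DL (x0 • q4 b + (x2 • q4 (b + 1) + (x1 • r4 (b + 1) + VV))) (TF d) t := by
  have hpos := TF_pos d
  have haR : (a : ℝ) = x0 + x1 + x2 := by rw [← hx]; push_cast; ring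
  have hnR : (n : ℝ) = 4 * a + c := by rw [hn]; push_cast; ring
  have hk : (b + 1) / 2 + (b + 2) / 2 = b + 1 := by omega
  obtain ⟨k0, hk0⟩ : ∃ k0, k0 = (b + 1) / 2 := ⟨_, rfl⟩
  obtain ⟨k2, hk2⟩ : ∃ k2, k2 = (b + 2) / 2 := ⟨_, rfl⟩
  obtain ⟨T, hT⟩ : ∃ T, T = (b + 1).choose 2 := ⟨_, rfl⟩
  obtain ⟨Te, hTe⟩ : ∃ Te, Te = TH2.NU.condM VV := ⟨_, rfl⟩
  have hT1 : (b + 1 + 1).choose 2 = T + (b + 1) := by rw [choose_succ, hT]
  rw [← hk0, ← hk2] at hk
  rw [← hk0, ← hk2, ← hT, ← hTe] at ht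
  rw [← hk2] at h10 h01
  -- the two ends
  have c11 : EmpM (x0 • {b + 1} + (x2 • {b + 2} + (x1 • {b + 1} + VV))) (TZ d) := by
    have h := EM3 (b := b) (c := c) (V := V) (n := n) (d := d) (y0 := 0) (y1 := x0 + x1) (y2 := x2) (a := a)
      hcV hE (by omega) hn (by omega) hd (by
        rw [hX]
        push_cast
        rw [hnR, haR]
        linarith)
    refine h.mono (le_of_eq ?_)
    rw [zero_smul, add_smul]
    abel
  -- independence for `j` points of multiplicity `b`
  have cS : ∀ j ≤ x0, 4 * ((x0 : ℝ) - j) + (2 * x1 + c) < RS n + X →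
      DL (j • {b} + ((a - j) • {b + 1} + VV)) (TF d)
        ((TF d).card - (j * T + (a - j) * (T + (b + 1)) + Te)) := by
    intro j hj hlt
    have h := SM2 (b := b) (c := c) (V := V) (n := n) (d := d) (y0 := j) (y1 := a - j) (a := a)
      hcV hS (by omega) hb1 hn h37 (by
        rw [hX, Nat.cast_sub (by omega)]
        push_cast
        rw [hnR, haR]
        linarith)
    rw [← coe_TF] at h
    refine DL_of_SurM h ?_
    rw [condM_add, condM_add, condM_smul, condM_smul, condM_single, condM_single, hT1, ← hT, ← hTe]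
    omega
  -- conversion to clusters
  have conv : DL (x0 • q4 b + (x2 • q4 (b + 1) + (x1 • {b + 1} + VV))) (TF d) t →
      DL (x0 • q4 b + (x2 • q4 (b + 1) + (x1 • r4 (b + 1) + VV))) (TF d) t := by
    intro h
    have e1 : ∀ U : Multiset ℕ, x0 • q4 b + (x2 • q4 (b + 1) + (x1 • U + VV)) =
        x1 • U + (x0 • q4 b + (x2 • q4 (b + 1) + VV)) := fun U => by abel
    rw [e1] at h ⊢
    exact h.exact (by omega)
  apply conv
  have g11 : DL (x0 • {b + 1} + (x2 • {b + 2} + (x1 • {b + 1} + VV))) (TF d) t := by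
    rw [← coe_TF] at c11
    exact (DL_of_EmpM c11).le (Nat.zero_le _)
  have g00 : DL (x0 • {b} + (x2 • {b + 1} + (x1 • {b + 1} + VV))) (TF d) (t + x0 * k0 + x2 * k2) := by
    have h := cS x0 le_rfl (by linarith)
    have e1 : x0 • ({b} : Multiset ℕ) + ((a - x0) • {b + 1} + VV) =
        x0 • {b} + (x2 • {b + 1} + (x1 • {b + 1} + VV)) := by
      have : a - x0 = x2 + x1 := by omega
      rw [this, add_smul]
      abel
    rw [e1] at h
    refine h.le ?_
    have : a - x0 = x1 + x2 := by omega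
    rw [this]
    have e2 : (TF d).card ≤ t + x0 * k0 + x2 * k2 + (x0 * T + (x1 + x2) * (T + (b + 1)) + Te) := by
      refine ht.trans (le_of_eq ?_)
      ring
    omega
  rcases Nat.eq_zero_or_pos x0 with hx0 | hx0
  · subst hx0
    rw [zero_smul, zero_add] at g11 g00 ⊢
    refine DL.dbl (b := b + 1) hpos g00 g11 ?_
    rw [← hk2]
    omega
  rcases Nat.eq_zero_or_pos x2 with hx2 | hx2
  · subst hx2
    rw [zero_smul, zero_add] at g11 g00 ⊢
    refine DL.dbl (b := b) hpos g00 g11 ?_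
    rw [← hk0]
    omega
  have h10' := (h10.resolve_left hx0.ne').resolve_left hx2.ne'
  have h01' := (h01.resolve_left hx0.ne').resolve_left hx2.ne'
  have g10 : DL (x0 • {b + 1} + (x2 • {b + 1} + (x1 • {b + 1} + VV))) (TF d) (t + x2 * k2) := by
    rcases h10' with ⟨j, hj, hj2, hj3⟩ | ⟨j, hj, hj2, hj3⟩
    · have h := cS j hj hj3
      have h2 := h.raise (Nat.le_succ b)
      have e1 : j • ({b + 1} : Multiset ℕ) + ((a - j) • {b + 1} + VV) =
          x0 • {b + 1} + (x2 • {b + 1} + (x1 • {b + 1} + VV)) := by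
        have e2 : j • ({b + 1} : Multiset ℕ) + (a - j) • {b + 1} = x0 • {b + 1} + x2 • {b + 1} + x1 • {b + 1} := by
          rw [← add_smul, ← add_smul, ← add_smul]
          congr 1
          omega
        rw [← add_assoc, e2]
        abel
      rw [e1] at h2
      refine h2.le ?_
      obtain ⟨u, rfl⟩ := Nat.exists_eq_add_of_le hj
      have e3 : a - j = u + x1 + x2 := by omega
      rw [e3]
      have e4 : (TF d).card ≤ t + x2 * k2 + (j * T + (u + x1 + x2) * (T + (b + 1)) + Te) := by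
        refine ht.trans ?_
        -- `x0 k0 ≤ u (b + 1)` where `x0 = j + u`
        have e5 : (j + u) * k0 + j * (b + 1) ≤ (j + u) * (b + 1) := by
          have e6 : (j + u) * (b + 1) = (j + u) * k0 + (j + u) * k2 := by rw [← hk]; ring
          omega
        have e7 : (j + u) * (T + k0) + x1 * (T + (b + 1)) + x2 * (T + (b + 1) + k2) + Te + t =
            (t + x2 * k2 + (j * T + (u + x1 + x2) * (T + (b + 1)) + Te)) + (j + u) * k0 - u * (b + 1) := by
          have : (j + u) * (T + k0) + x1 * (T + (b + 1)) + x2 * (T + (b + 1) + k2) + Te + t + u * (b + 1) =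
            (t + x2 * k2 + (j * T + (u + x1 + x2) * (T + (b + 1)) + Te)) + (j + u) * k0 := by ring
          omega
        have e8 : (j + u) * (b + 1) = j * (b + 1) + u * (b + 1) := by ring
        omega
      omega
    · have h := EM3 (b := b) (c := c) (V := V) (n := n) (d := d) (y0 := 0) (y1 := a - j) (y2 := j) (a := a)
        hcV hE (by omega) hn (by omega) hd (by
          rw [hX, Nat.cast_sub hj]
          push_cast
          rw [hnR, haR]
          linarith)
      rw [← coe_TF] at h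
      have h2 := DL_of_EmpM h
      have e1 : 0 • ({b} : Multiset ℕ) + ((a - j) • {b + 1} + (j • {b + 2} + VV)) =
          j • {b + 1 + 1} + ((a - j) • {b + 1} + VV) := by
        rw [zero_smul]
        abel
      rw [e1] at h2
      have h3 := h2.lower
      have e2 : j • ({b + 1} : Multiset ℕ) + ((a - j) • {b + 1} + VV) =
          x0 • {b + 1} + (x2 • {b + 1} + (x1 • {b + 1} + VV)) := by
        have e2 : j • ({b + 1} : Multiset ℕ) + (a - j) • {b + 1} = x0 • {b + 1} + x2 • {b + 1} + x1 • {b + 1} := by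
          rw [← add_smul, ← add_smul, ← add_smul]
          congr 1
          omega
        rw [← add_assoc, e2]
        abel
      rw [e2] at h3
      refine h3.le ?_
      rw [zero_add]
      exact hj2
  have g01 : DL (x0 • {b} + (x2 • {b + 2} + (x1 • {b + 1} + VV))) (TF d) (t + x0 * k0) := by
    obtain ⟨p, q, i, hpq, hq, hi, hi2, hi1, s1, s2, s3⟩ := h01'
    have hS1 := cS (x0 - p) (Nat.sub_le _ _) (by
      rw [Nat.cast_sub (hpq.trans hq)]
      linarith)
    have hE1 := EM3 (b := b) (c := c) (V := V) (n := n) (d := d) (y0 := x0 - q)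
      (y1 := (q - p) + (x1 + x2 + p - i)) (y2 := i) (a := a)
      hcV hE (by omega) hn (by omega) hd (by
        rw [hX]
        push_cast [Nat.cast_sub hq, Nat.cast_sub hpq, Nat.cast_sub hi2]
        rw [hnR, haR]
        rw [haR] at s2
        linarith)
    rw [← coe_TF] at hE1
    have hE2 := DL_of_EmpM hE1
    have e1 : (x0 - q) • ({b} : Multiset ℕ) + (((q - p) + (x1 + x2 + p - i)) • {b + 1} + (i • {b + 2} + VV)) =
        (q - p) • {b + 1} + (i • {b + 2} + ((x0 - q) • {b} + ((x1 + x2 + p - i) • {b + 1} + VV))) := by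
      rw [add_smul]
      abel
    rw [e1] at hE2
    have hE3 := hE2.lower
    obtain ⟨M', hM'⟩ : ∃ M' : Multiset ℕ, M' = (x0 - p) • {b} + ((x1 + x2 + p - i) • {b + 1} + VV) := ⟨_, rfl⟩
    have e2 : (q - p) • ({b} : Multiset ℕ) + (i • {b + 2} + ((x0 - q) • {b} + ((x1 + x2 + p - i) • {b + 1} + VV))) =
        (x2 + (i - x2)) • {b + 1 + 1} + M' := by
      have e3 : (x0 - p) • ({b} : Multiset ℕ) = (q - p) • {b} + (x0 - q) • {b} := by
        rw [← add_smul]
        congr 1
        omega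
      rw [hM', e3, Nat.add_sub_cancel' hi]
      abel
    rw [e2] at hE3
    have e4 : (x0 - p) • ({b} : Multiset ℕ) + ((a - (x0 - p)) • {b + 1} + VV) =
        (x2 + (i - x2)) • {b + 1} + M' := by
      have e5 : (a - (x0 - p)) • ({b + 1} : Multiset ℕ) = i • {b + 1} + (x1 + x2 + p - i) • {b + 1} := by
        rw [← add_smul]
        congr 1
        omega
      rw [hM', e5, Nat.add_sub_cancel' hi]
      abel
    rw [e4] at hS1
    -- the chord
    obtain ⟨h, hh⟩ : ∃ h : ℕ, h + p * (b + 1) = t + x0 * k0 ∧ x2 * ((i - x2) * k2 + (q - p) * (b + 1)) < i + x2 * h := by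
      by_cases hcase : p * (b + 1) ≤ t + x0 * k0
      · refine ⟨t + x0 * k0 - p * (b + 1), Nat.sub_add_cancel hcase, ?_⟩
        obtain ⟨h, hh⟩ := Nat.exists_eq_add_of_le hcase
        rw [hh, Nat.add_sub_cancel_left]
        obtain ⟨v, rfl⟩ := Nat.exists_eq_add_of_le hpq
        obtain ⟨w, rfl⟩ := Nat.exists_eq_add_of_le hq
        obtain ⟨z, rfl⟩ := Nat.exists_eq_add_of_le hi
        rw [Nat.add_sub_cancel_left, Nat.add_sub_cancel_left]
        rw [Nat.add_sub_cancel_left, Nat.add_sub_cancel_left] at s3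
        -- h = t + x0 k0 - p B
        have f1 : x2 * t + x2 * ((p + v + w) * k0) = x2 * (p * (b + 1)) + x2 * h := by
          rw [← mul_add, hh, mul_add]
        have f2 : x2 * ((p + v + w + z) * k2) + x2 * ((p + v + w) * k0) =
            x2 * (z * k2 + v * (b + 1)) + x2 * (p * (b + 1)) + x2 * (w * (b + 1)) := by
          rw [← hk]; ring
        omega
      · exfalso
        push Not at hcase
        obtain ⟨v, rfl⟩ := Nat.exists_eq_add_of_le hpq
        obtain ⟨w, rfl⟩ := Nat.exists_eq_add_of_le hq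
        obtain ⟨z, rfl⟩ := Nat.exists_eq_add_of_le hi
        rw [Nat.add_sub_cancel_left, Nat.add_sub_cancel_left] at s3
        have f2 : x2 * ((p + v + w + z) * k2) + x2 * ((p + v + w) * k0) =
            x2 * (z * k2 + v * (b + 1)) + x2 * (p * (b + 1)) + x2 * (w * (b + 1)) := by
          rw [← hk]; ring
        -- `t + x0 k0 < p B`
        have f3 : x2 * (t + (p + v + w) * k0) + x2 ≤ x2 * (p * (b + 1)) := by
          have := Nat.mul_le_mul_left x2 (Nat.succ_le_of_lt hcase)
          rw [Nat.succ_eq_add_one, mul_add, mul_one] at this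
          exact this
        rw [mul_add] at f3
        -- z k2 + 1 > ..., need contradiction: x2 * z * k2 < z
        have f4 : z ≤ x2 * (z * k2) := by
          have : 1 ≤ x2 * k2 := Nat.mul_pos hx2 (by omega)
          calc z = z * 1 := (mul_one z).symm
            _ ≤ z * (x2 * k2) := Nat.mul_le_mul_left _ this
            _ = x2 * (z * k2) := by ring
        have f5 : x2 * (z * k2 + v * (b + 1)) = x2 * (z * k2) + x2 * (v * (b + 1)) := by ring
        omega
    obtain ⟨hh1, hh2⟩ := hh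
    have hcard : (TF d).card - ((x0 - p) * T + (a - (x0 - p)) * (T + (b + 1)) + Te) ≤ h + x2 * k2 := by
      obtain ⟨v, hv⟩ := Nat.exists_eq_add_of_le (hpq.trans hq)
      have e6 : a - (x0 - p) = p + x1 + x2 := by omega
      have e7 : x0 - p = v := by omega
      rw [e6, e7]
      have e8 : (TF d).card ≤ h + x2 * k2 + (v * T + (p + x1 + x2) * (T + (b + 1)) + Te) := by
        refine ht.trans ?_
        rw [hv] at hh1 ⊢
        have : (p + v) * (T + k0) + x1 * (T + (b + 1)) + x2 * (T + (b + 1) + k2) + Te + t + p * (b + 1) =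
          (t + (p + v) * k0) + x2 * k2 + (v * T + (p + x1 + x2) * (T + (b + 1)) + Te) := by ring
        omega
      omega
    have hch := chord (j := x2) (r := i - x2) (by omega) hpos (hS1.le hcard) hE3 (c := h) (by
      rw [zero_add, Nat.add_sub_cancel' hi]
      obtain ⟨z, rfl⟩ := Nat.exists_eq_add_of_le hi
      rw [Nat.add_sub_cancel_left] at hh2 ⊢
      have f1 : z * (h + x2 * k2) + x2 * ((q - p) * (b + 1)) = z * h + x2 * (z * k2 + (q - p) * (b + 1)) := by ring
      have f2 : (x2 + z) * (h + 1) = z * h + (x2 + z + x2 * h) := by ring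
      omega)
    have e9 : x2 • ({b + 1 + 1} : Multiset ℕ) + ((i - x2) • {b + 1} + M') =
        p • {b + 1} + (x2 • {b + 2} + ((x0 - p) • {b} + (x1 • {b + 1} + VV))) := by
      have e10 : (i - x2) • ({b + 1} : Multiset ℕ) + (x1 + x2 + p - i) • {b + 1} = p • {b + 1} + x1 • {b + 1} := by
        rw [← add_smul, ← add_smul]
        congr 1
        omega
      rw [hM']
      calc x2 • ({b + 1 + 1} : Multiset ℕ) + ((i - x2) • {b + 1} + ((x0 - p) • {b} + ((x1 + x2 + p - i) • {b + 1} + VV)))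
          = x2 • {b + 2} + ((x0 - p) • {b} + (((i - x2) • ({b + 1} : Multiset ℕ) + (x1 + x2 + p - i) • {b + 1}) + VV)) := by
            abel
        _ = _ := by
            rw [e10]
            abel
    rw [e9] at hch
    have hf := hch.lower
    have e11 : p • ({b} : Multiset ℕ) + (x2 • {b + 2} + ((x0 - p) • {b} + (x1 • {b + 1} + VV))) =
        x0 • {b} + (x2 • {b + 2} + (x1 • {b + 1} + VV)) := by
      have e12 : x0 • ({b} : Multiset ℕ) = p • {b} + (x0 - p) • {b} := by
        rw [← add_smul]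
        congr 1
        omega
      rw [e12]
      abel
    rw [e11] at hf
    exact hf.le (le_of_eq hh1)
  have := four_corners (x0 := x0) (x2 := x2) (b := b) (t := t) hpos
    (by rw [← hk0, ← hk2]; exact g00) (by rw [← hk0]; exact g01) (by rw [← hk2]; exact g10) g11
  exact this

end Pool.Agent.X167.NU
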