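import Pool.Agent.H15.G.R_pool_sql_team_seeded_64922ed1.X167.NU.ChkDef
import Pool.Agent.H15.G.R_pool_sql_team_seeded_64922ed1.X167.NU.Crit

/-! The checker: soundness. -/

namespace Pool.Agent.X167.NU

/-- the inequalities of the criterion -/
def Hyp (a b c n t x0 x1 x2 : ℕ) (X : ℝ) : Prop :=
  (2 * x1 + c : ℝ) + X < RE n ∧ (2 * x1 + c : ℝ) < RS n + X ∧
  (x0 = 0 ∨ x2 = 0 ∨
      (∃ j ≤ x0, j * (b + 1) ≤ x0 * ((b + 2) / 2) ∧ 4 * ((x0 : ℝ) - j) + (2 * x1 + c) < RS n + X) ∨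
      (∃ j ≤ a, j * (b + 2) ≤ t + x2 * ((b + 2) / 2) ∧ X + (2 * x1 + c) + 4 * x2 < RE n + 4 * j)) ∧
  (x0 = 0 ∨ x2 = 0 ∨ ∃ p q i, p ≤ q ∧ q ≤ x0 ∧ x2 ≤ i ∧ i ≤ x1 + x2 + p ∧ 1 ≤ i ∧
      4 * (p : ℝ) + (2 * x1 + c) < RS n + X ∧ X + (4 * a + c) < RE n + (2 * x1 + 4 * (q + i)) ∧
      x2 * ((x0 + (i - x2)) * ((b + 2) / 2)) < i + x2 * ((x0 - q) * (b + 1)) + x2 * t)

theorem sub_lt {y : ℝ} {A B : ℕ} (hy : 0 ≤ y) (h : y < ((A - B : ℕ) : ℝ)) : y + B < A := by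
  rcases le_total A B with h1 | h1
  · rw [Nat.sub_eq_zero_of_le h1] at h
    push_cast at h
    linarith
  · rw [Nat.cast_sub h1] at h
    linarith

theorem dt01_sound {a b cf B0 τ ε x2 pp qq i lo t : ℕ} {X : ℝ} (hε : 2 * ((b + 2) / 2) = b + 1 + ε)
    (hB : B0 ≤ b + 1) (hlo : (lo : ℝ) ≤ 120000 * X + 2880000)
    (hD : 2 * ((b : ℝ) + 1) * X - 1 - 4 * ((τ : ℝ) - a) * ε + cf ≤ 8 * t)
    (h : dt01 a cf B0 τ ε x2 pp qq i lo = true) :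
    x2 * (pp * ((b + 2) / 2)) < i + x2 * (qq * (b + 1)) + x2 * t := by
  obtain ⟨k, hk⟩ : ∃ k, k = (b + 2) / 2 := ⟨_, rfl⟩
  rw [← hk] at hε ⊢
  unfold dt01 at h
  rw [Bool.or_eq_true, Bool.and_eq_true, Bool.and_eq_true, Nat.ble_eq, Nat.blt_eq, Nat.ble_eq,
    Nat.blt_eq] at h
  rcases h with ⟨h1, h2⟩ | ⟨h1, h2⟩
  · obtain ⟨v, hv⟩ := Nat.exists_eq_add_of_le h1
    rw [hv, Nat.add_sub_cancel_left] at h2
    have e1 : x2 * (v * B0) ≤ x2 * (v * (b + 1)) := Nat.mul_le_mul_left _ (Nat.mul_le_mul_left _ hB)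
    have e2 : 2 * (x2 * (pp * k)) = x2 * (pp * (b + 1)) + x2 * (pp * ε) := by
      calc 2 * (x2 * (pp * k)) = x2 * (pp * (2 * k)) := by ring
        _ = _ := by rw [hε]; ring
    have e3 : 2 * (x2 * (qq * (b + 1))) = x2 * (pp * (b + 1)) + x2 * (v * (b + 1)) := by
      calc 2 * (x2 * (qq * (b + 1))) = x2 * ((2 * qq) * (b + 1)) := by ring
        _ = _ := by rw [hv]; ring
    have e4 : 0 ≤ x2 * t := Nat.zero_le _
    omega
  · obtain ⟨ρ, hρ⟩ : ∃ ρ, ρ = pp - 2 * qq := ⟨_, rfl⟩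
    rw [← hρ] at h1 h2
    have hρ2 : pp ≤ 2 * qq + ρ := by omega
    obtain ⟨w, hw⟩ := Nat.exists_eq_add_of_le h1
    have e1 : lo - SH - 2 * ρ * LL = w := by omega
    rw [e1] at h2
    have h2' : 4 * (x2 : ℝ) * pp * ε * 120000 + x2 * (1 + 4 * τ * ε) * 120000 <
      2 * x2 * B0 * w + x2 * (4 * a * ε + cf) * 120000 + 8 * i * 120000 := by exact_mod_cast h2
    have hw' : (lo : ℝ) = 2880000 + 2 * ρ * 120000 + w := by rw [hw]; push_cast; ring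
    have hBR : (B0 : ℝ) ≤ b + 1 := by exact_mod_cast hB
    have hρR : (pp : ℝ) ≤ 2 * qq + ρ := by exact_mod_cast hρ2
    have hεR : 2 * (k : ℝ) = b + 1 + ε := by exact_mod_cast hε
    have hw0 : (0 : ℝ) ≤ w := Nat.cast_nonneg _
    have hx20 : (0 : ℝ) ≤ x2 := Nat.cast_nonneg _
    have hb0 : (0 : ℝ) ≤ (b : ℝ) + 1 := by positivity
    have f1 : (w : ℝ) ≤ 120000 * (X - 2 * ρ) := by linarith
    have f2 : (B0 : ℝ) * w ≤ (b + 1) * (120000 * (X - 2 * ρ)) :=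
      mul_le_mul hBR f1 hw0 hb0
    have f3 : (x2 : ℝ) * (B0 * w) ≤ x2 * ((b + 1) * (120000 * (X - 2 * ρ))) :=
      mul_le_mul_of_nonneg_left f2 hx20
    have f4 := mul_le_mul_of_nonneg_left hD hx20
    have f5 : (x2 : ℝ) * ((b + 1) * pp) ≤ x2 * ((b + 1) * (2 * qq + ρ)) :=
      mul_le_mul_of_nonneg_left (mul_le_mul_of_nonneg_left hρR hb0) hx20
    have f6 : (x2 : ℝ) * (pp * k) < i + x2 * (qq * (b + 1)) + x2 * t := by
      have e2 : 2 * ((x2 : ℝ) * (pp * k)) = x2 * ((b + 1) * pp) + x2 * pp * ε := by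
        calc 2 * ((x2 : ℝ) * (pp * k)) = x2 * (pp * (2 * k)) := by ring
          _ = _ := by rw [hεR]; ring
      nlinarith
    exact_mod_cast f6

theorem dt10_sound {a b cf B0 τ ε x2 j lo t : ℕ} {X : ℝ} (hε : 2 * ((b + 2) / 2) = b + 1 + ε)
    (hB : B0 ≤ b + 1) (hlo : (lo : ℝ) ≤ 120000 * X + 2880000)
    (hD : 2 * ((b : ℝ) + 1) * X - 1 - 4 * ((τ : ℝ) - a) * ε + cf ≤ 8 * t)
    (h : dt10 a cf B0 τ ε x2 j lo = true) :
    j * (b + 2) ≤ t + x2 * ((b + 2) / 2) := by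
  obtain ⟨k, hk⟩ : ∃ k, k = (b + 2) / 2 := ⟨_, rfl⟩
  rw [← hk] at hε ⊢
  unfold dt10 at h
  rw [Bool.or_eq_true, Bool.and_eq_true, Bool.and_eq_true, Nat.ble_eq, Nat.ble_eq, Nat.ble_eq,
    Nat.ble_eq] at h
  rcases h with ⟨h1, h2⟩ | ⟨h1, h2⟩
  · obtain ⟨v, hv⟩ := Nat.exists_eq_add_of_le h1
    rw [hv, Nat.add_sub_cancel_left] at h2
    have e1 : v * B0 ≤ v * (b + 1) := Nat.mul_le_mul_left _ hB
    have e2 : 2 * ((2 * j + v) * k) = (2 * j + v) * (b + 1) + (2 * j + v) * ε := by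
      calc 2 * ((2 * j + v) * k) = (2 * j + v) * (2 * k) := by ring
        _ = _ := by rw [hε]; ring
    have e3 : 2 * (j * (b + 2)) = 2 * j * (b + 1) + 2 * j := by ring
    have e4 : (2 * j + v) * (b + 1) = 2 * j * (b + 1) + v * (b + 1) := by ring
    rw [hv]
    omega
  · obtain ⟨ρ, hρ⟩ : ∃ ρ, ρ = 2 * j - x2 := ⟨_, rfl⟩
    rw [← hρ] at h1 h2
    have hρ2 : 2 * j ≤ x2 + ρ := by omega
    obtain ⟨w, hw⟩ := Nat.exists_eq_add_of_le h1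
    have e1 : lo - SH - 2 * ρ * LL = w := by omega
    rw [e1] at h2
    have h2' : (8 * (j : ℝ) + 1 + 4 * τ * ε) * 120000 ≤
      2 * B0 * w + (4 * a * ε + cf + 4 * x2 * ε) * 120000 := by exact_mod_cast h2
    have hw' : (lo : ℝ) = 2880000 + 2 * ρ * 120000 + w := by rw [hw]; push_cast; ring
    have hBR : (B0 : ℝ) ≤ b + 1 := by exact_mod_cast hB
    have hρR : 2 * (j : ℝ) ≤ x2 + ρ := by exact_mod_cast hρ2
    have hεR : 2 * (k : ℝ) = b + 1 + ε := by exact_mod_cast hε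
    have hw0 : (0 : ℝ) ≤ w := Nat.cast_nonneg _
    have hb0 : (0 : ℝ) ≤ (b : ℝ) + 1 := by positivity
    have f1 : (w : ℝ) ≤ 120000 * (X - 2 * ρ) := by linarith
    have f2 : (B0 : ℝ) * w ≤ (b + 1) * (120000 * (X - 2 * ρ)) :=
      mul_le_mul hBR f1 hw0 hb0
    have f5 : ((b : ℝ) + 1) * (2 * j) ≤ (b + 1) * (x2 + ρ) := mul_le_mul_of_nonneg_left hρR hb0
    have f6 : (j : ℝ) * (b + 2) ≤ t + x2 * k := by
      have e2 : 2 * ((x2 : ℝ) * k) = x2 * (b + 1) + x2 * ε := by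
        calc 2 * ((x2 : ℝ) * k) = x2 * (2 * k) := by ring
          _ = _ := by rw [hεR]; ring
      nlinarith
    exact_mod_cast f6

theorem ite_pos' {y : ℝ} {P : Bool} {A : ℕ} (hy : 0 ≤ y) (h : y < ((if P = true then A else 0 : ℕ) : ℝ)) :
    P = true ∧ y < (A : ℝ) := by
  by_cases hP : P = true
  · rw [if_pos hP] at h
    exact ⟨hP, h⟩
  · rw [if_neg hP] at h
    push_cast at h
    linarith

theorem side10_sound {a b c n cf RE' RS' B0 τ ε x0 x1 x2 lo t : ℕ} {X : ℝ}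
    (hRE : (RE' : ℝ) ≤ 120000 * RE n) (hRS : (RS' : ℝ) ≤ 120000 * RS n)
    (hε : 2 * ((b + 2) / 2) = b + 1 + ε)
    (hB : B0 ≤ b + 1) (hlo : (lo : ℝ) ≤ 120000 * X + 2880000)
    (hD : 2 * ((b : ℝ) + 1) * X - 1 - 4 * ((τ : ℝ) - a) * ε + cf ≤ 8 * t)
    (h : 120000 * X + 2880000 < ((side10 a c cf RE' RS' B0 τ ε x0 x1 x2 lo : ℕ) : ℝ)) :
      (∃ j ≤ x0, j * (b + 1) ≤ x0 * ((b + 2) / 2) ∧ 4 * ((x0 : ℝ) - j) + (2 * x1 + c) < RS n + X) ∨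
      (∃ j ≤ a, j * (b + 2) ≤ t + x2 * ((b + 2) / 2) ∧ X + (2 * x1 + c) + 4 * x2 < RE n + 4 * j) := by
  have hy : 0 ≤ 120000 * X + 2880000 := le_trans (Nat.cast_nonneg _) hlo
  unfold side10 at h
  by_cases hc : Nat.blt (4 * (x0 - x0 / 2) * LL + (2 * x1 + c) * LL + SH) (RS' + lo) = true
  · left
    rw [Nat.blt_eq] at hc
    refine ⟨x0 / 2, by omega, ?_, ?_⟩
    · have h1 : b + 1 ≤ 2 * ((b + 2) / 2) := by omega
      have h2 : 2 * (x0 / 2) ≤ x0 := by omega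
      calc x0 / 2 * (b + 1) ≤ x0 / 2 * (2 * ((b + 2) / 2)) := Nat.mul_le_mul_left _ h1
        _ = 2 * (x0 / 2) * ((b + 2) / 2) := by ring
        _ ≤ _ := Nat.mul_le_mul_right _ h2
    · have h1 : 4 * ((x0 : ℝ) - (x0 / 2 : ℕ)) * 120000 + (2 * x1 + c) * 120000 + 2880000 < RS' + lo := by
        have h2 : ((4 * (x0 - x0 / 2) * LL + (2 * x1 + c) * LL + SH : ℕ) : ℝ) < ((RS' + lo : ℕ) : ℝ) := by
          exact_mod_cast hc
        push_cast [Nat.cast_sub (Nat.div_le_self x0 2)] at h2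
        linarith
      linarith
  · right
    rw [if_neg hc] at h
    simp only [Nat.cast_max, lt_max_iff] at h
    have key : ∀ j : ℕ, 120000 * X + 2880000 < ((if (Nat.ble j a && dt10 a cf B0 τ ε x2 j lo) = true then
      RE' + SH + 4 * j * LL - (2 * x1 + c) * LL - 4 * x2 * LL else 0 : ℕ) : ℝ) →
      (∃ j ≤ a, j * (b + 2) ≤ t + x2 * ((b + 2) / 2) ∧ X + (2 * x1 + c) + 4 * x2 < RE n + 4 * j) := by
      intro j hj
      obtain ⟨h1, h2⟩ := ite_pos' hy hj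
      rw [Bool.and_eq_true, Nat.ble_eq] at h1
      refine ⟨j, h1.1, dt10_sound hε hB hlo hD h1.2, ?_⟩
      have h3 := sub_lt hy h2
      have h4 := sub_lt (by positivity) h3
      push_cast at h4
      linarith
    rcases h with h | h
    · exact key _ h
    · exact key _ h

theorem side01_sound {a b c n cf RE' RS' B0 τ ε x0 x1 x2 lo t : ℕ} {X : ℝ}
    (hRE : (RE' : ℝ) ≤ 120000 * RE n) (hRS : (RS' : ℝ) ≤ 120000 * RS n)
    (hε : 2 * ((b + 2) / 2) = b + 1 + ε)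
    (hB : B0 ≤ b + 1) (hlo : (lo : ℝ) ≤ 120000 * X + 2880000)
    (hD : 2 * ((b : ℝ) + 1) * X - 1 - 4 * ((τ : ℝ) - a) * ε + cf ≤ 8 * t)
    (h : 120000 * X + 2880000 < ((side01 a c cf RE' RS' B0 τ ε x0 x1 x2 lo : ℕ) : ℝ)) :
    ∃ p q i, p ≤ q ∧ q ≤ x0 ∧ x2 ≤ i ∧ i ≤ x1 + x2 + p ∧ 1 ≤ i ∧
      4 * (p : ℝ) + (2 * x1 + c) < RS n + X ∧ X + (4 * a + c) < RE n + (2 * x1 + 4 * (q + i)) ∧
      x2 * ((x0 + (i - x2)) * ((b + 2) / 2)) < i + x2 * ((x0 - q) * (b + 1)) + x2 * t := by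
  have hy : 0 ≤ 120000 * X + 2880000 := le_trans (Nat.cast_nonneg _) hlo
  unfold side01 at h
  have key : ∀ p q i : ℕ, 120000 * X + 2880000 <
      ((if (Nat.ble q x0 && Nat.ble x2 i && Nat.ble 1 i && Nat.ble i (x1 + x2 + p) && Nat.ble p q &&
      Nat.blt (4 * p * LL + (2 * x1 + c) * LL + SH) (RS' + lo) &&
      dt01 a cf B0 τ ε x2 (x0 + (i - x2)) (x0 - q) i lo) = true then
      RE' + SH + (2 * x1 + 4 * (q + i)) * LL - (4 * a + c) * LL else 0 : ℕ) : ℝ) →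
      ∃ p q i, p ≤ q ∧ q ≤ x0 ∧ x2 ≤ i ∧ i ≤ x1 + x2 + p ∧ 1 ≤ i ∧
      4 * (p : ℝ) + (2 * x1 + c) < RS n + X ∧ X + (4 * a + c) < RE n + (2 * x1 + 4 * (q + i)) ∧
      x2 * ((x0 + (i - x2)) * ((b + 2) / 2)) < i + x2 * ((x0 - q) * (b + 1)) + x2 * t := by
    intro p q i hp
    obtain ⟨h1, h2⟩ := ite_pos' hy hp
    simp only [Bool.and_eq_true, Nat.ble_eq, Nat.blt_eq] at h1
    obtain ⟨⟨⟨⟨⟨⟨g1, g2⟩, g3⟩, g4⟩, g5⟩, g6⟩, g7⟩ := h1
    refine ⟨p, q, i, g5, g1, g2, g4, g3, ?_, ?_, dt01_sound hε hB hlo hD g7⟩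
    · have h3 : ((4 * p * LL + (2 * x1 + c) * LL + SH : ℕ) : ℝ) < ((RS' + lo : ℕ) : ℝ) := by
        exact_mod_cast g6
      push_cast at h3
      linarith
    · have h4 := sub_lt hy h2
      push_cast at h4
      linarith
  simp only [Nat.cast_max, lt_max_iff] at h
  rcases h with h | h | h
  · exact key _ _ _ h
  · exact key _ _ _ h
  · exact key _ _ _ h

theorem stp_sound {a b c n cf RE' RS' B0 τ ε x1 lo t : ℕ} {X : ℝ}
    (hRE : (RE' : ℝ) ≤ 120000 * RE n) (hRS : (RS' : ℝ) ≤ 120000 * RS n)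
    (hε : 2 * ((b + 2) / 2) = b + 1 + ε)
    (hB : B0 ≤ b + 1) (hlo : (lo : ℝ) ≤ 120000 * X + 2880000)
    (hD : 2 * ((b : ℝ) + 1) * X - 1 - 4 * ((τ : ℝ) - a) * ε + cf ≤ 8 * t)
    (h : 120000 * X + 2880000 < ((stp a c cf RE' RS' B0 τ ε x1 lo : ℕ) : ℝ)) :
    ∃ x0 x1 x2, x0 + x1 + x2 = a ∧ x1 + 2 * x2 = τ ∧ Hyp a b c n t x0 x1 x2 X := by
  have hy : 0 ≤ 120000 * X + 2880000 := le_trans (Nat.cast_nonneg _) hlo
  unfold stp at h
  obtain ⟨x2, hx2⟩ : ∃ x2, x2 = (τ - x1) / 2 := ⟨_, rfl⟩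
  obtain ⟨x0, hx0⟩ : ∃ x0, x0 = a - x1 - x2 := ⟨_, rfl⟩
  simp only [← hx2, ← hx0] at h
  obtain ⟨h1, h2⟩ := ite_pos' hy h
  simp only [Bool.and_eq_true, Nat.beq_eq, Nat.blt_eq] at h1
  obtain ⟨⟨g1, g2⟩, g3⟩ := h1
  have s0 : (2 * x1 + c : ℝ) < RS n + X := by
    have h3 : (((2 * x1 + c) * LL + SH : ℕ) : ℝ) < ((RS' + lo : ℕ) : ℝ) := by exact_mod_cast g3
    push_cast at h3
    linarith
  have hE : 120000 * X + 2880000 < ((RE' + SH - (2 * x1 + c) * LL : ℕ) : ℝ) →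
      (2 * x1 + c : ℝ) + X < RE n := by
    intro h3
    have h4 := sub_lt hy h3
    push_cast at h4
    linarith
  refine ⟨x0, x1, x2, g2, g1, ?_⟩
  by_cases hc : (Nat.beq x0 0 || Nat.beq x2 0) = true
  · rw [if_pos hc] at h2
    rw [Bool.or_eq_true, Nat.beq_eq, Nat.beq_eq] at hc
    refine ⟨hE h2, s0, ?_, ?_⟩
    · rcases hc with hc | hc
      · exact Or.inl hc
      · exact Or.inr (Or.inl hc)
    · rcases hc with hc | hc
      · exact Or.inl hc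
      · exact Or.inr (Or.inl hc)
  · rw [if_neg hc] at h2
    simp only [Nat.cast_min, lt_min_iff] at h2
    obtain ⟨k1, k2, k3⟩ := h2
    exact ⟨hE k1, s0, Or.inr (Or.inr (side10_sound hRE hRS hε hB hlo hD k2)),
      Or.inr (Or.inr (side01_sound hRE hRS hε hB hlo hD k3))⟩

theorem run_sound {a b c n cf RE' RS' B0 τ ε th t : ℕ} {X : ℝ}
    (hRE : (RE' : ℝ) ≤ 120000 * RE n) (hRS : (RS' : ℝ) ≤ 120000 * RS n)
    (hε : 2 * ((b + 2) / 2) = b + 1 + ε)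
    (hB : B0 ≤ b + 1) (hX : 120000 * X ≤ th)
    (hD : 2 * ((b : ℝ) + 1) * X - 1 - 4 * ((τ : ℝ) - a) * ε + cf ≤ 8 * t) (f : ℕ) :
    ∀ lo : ℕ, (lo : ℝ) ≤ 120000 * X + 2880000 → run a c cf RE' RS' B0 τ ε th f lo = true →
    ∃ x0 x1 x2, x0 + x1 + x2 = a ∧ x1 + 2 * x2 = τ ∧ Hyp a b c n t x0 x1 x2 X := by
  induction f with
  | zero => intro lo _ h; simp [run] at h
  | succ f ih =>
    intro lo hlo h
    unfold run at h
    rw [Bool.or_eq_true, Nat.blt_eq] at h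
    rcases h with h | h
    · exfalso
      have h1 : ((th + SH : ℕ) : ℝ) < lo := by exact_mod_cast h
      push_cast at h1
      linarith
    · obtain ⟨xa, hxa⟩ : ∃ xa, xa = (if Nat.ble τ a then τ else 2 * a - τ) := ⟨_, rfl⟩
      simp only [← hxa] at h
      by_cases hc : Nat.blt (th + SH) (stp a c cf RE' RS' B0 τ ε xa lo) = true
      · rw [if_pos hc] at h
        rw [Bool.and_eq_true] at h
        rcases lt_or_ge (120000 * X + 2880000) ((stp a c cf RE' RS' B0 τ ε xa lo : ℕ) : ℝ) with h1 | h1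
        · exact stp_sound hRE hRS hε hB hlo hD h1
        · exact ih _ h1 h.2
      · rw [if_neg hc] at h
        rw [Bool.and_eq_true] at h
        rcases lt_or_ge (120000 * X + 2880000)
          ((max (stp a c cf RE' RS' B0 τ ε xa lo) (stp a c cf RE' RS' B0 τ ε (τ % 2) lo) : ℕ) : ℝ) with h1 | h1
        · rw [Nat.cast_max, lt_max_iff] at h1
          rcases h1 with h1 | h1
          · exact stp_sound hRE hRS hε hB hlo hD h1
          · exact stp_sound hRE hRS hε hB hlo hD h1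
        · exact ih _ h1 h.2

end Pool.Agent.X167.NU
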