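import Pool.Agent.H15.G.R_pool_sql_team_seeded_64922ed1.X167.NU.Chk2

/-! The check for `n = 69`. -/

namespace Pool.Agent.X167.NU

theorem run2_sound {a b c n cf cf' RE' RS' B0 τ ε th t : ℕ} {X : ℝ}
    (hRE : (RE' : ℝ) ≤ 120000 * RE n) (hRS : (RS' : ℝ) ≤ 120000 * RS n)
    (hε : 2 * ((b + 2) / 2) = b + 1 + ε)
    (hB : B0 ≤ b + 1) (hX : 120000 * X ≤ th)
    (hD : 2 * ((b : ℝ) + 1) * X - 1 - 4 * ((τ : ℝ) - a) * ε + cf ≤ 8 * t)
    (hD' : 2 * ((b : ℝ) + 1) * X - 1 - 4 * (((τ - 1 : ℕ) : ℝ) - a) * ε + cf' ≤ 8 * t) (f : ℕ) :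
    ∀ lo : ℕ, (lo : ℝ) ≤ 120000 * X + 2880000 → run2 a c cf cf' RE' RS' B0 τ ε th f lo = true →
    (∃ x0 x1 x2, x0 + x1 + x2 = a ∧ x1 + 2 * x2 = τ ∧ Hyp a b c n t x0 x1 x2 X) ∨
    (∃ x0 x1 x2, x0 + x1 + x2 = a ∧ x1 + 2 * x2 = τ - 1 ∧ Hyp a b c n t x0 x1 x2 X) := by
  induction f with
  | zero => intro lo _ h; simp [run2] at h
  | succ f ih =>
    intro lo hlo h
    unfold run2 at h
    rw [Bool.or_eq_true, Nat.blt_eq] at h
    rcases h with h | h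
    · exfalso
      have h1 : ((th + SH : ℕ) : ℝ) < lo := by exact_mod_cast h
      push_cast at h1
      linarith
    · rw [Bool.and_eq_true] at h
      rcases lt_or_ge (120000 * X + 2880000)
        ((max (max (stp a c cf RE' RS' B0 τ ε (if Nat.ble τ a then τ else 2 * a - τ) lo)
                  (stp a c cf RE' RS' B0 τ ε (τ % 2) lo))
                (max (stp a c cf' RE' RS' B0 (τ - 1) ε (if Nat.ble (τ - 1) a then τ - 1 else 2 * a - (τ - 1)) lo)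
                  (stp a c cf' RE' RS' B0 (τ - 1) ε ((τ - 1) % 2) lo)) : ℕ) : ℝ) with h1 | h1
      · rw [Nat.cast_max, Nat.cast_max, Nat.cast_max, lt_max_iff, lt_max_iff, lt_max_iff] at h1
        rcases h1 with (h1 | h1) | (h1 | h1)
        · exact Or.inl (stp_sound hRE hRS hε hB hlo hD h1)
        · exact Or.inl (stp_sound hRE hRS hε hB hlo hD h1)
        · exact Or.inr (stp_sound hRE hRS hε hB hlo hD' h1)
        · exact Or.inr (stp_sound hRE hRS hε hB hlo hD' h1)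
      · exact ih _ h1 h.2

/-- the conclusion for one number of points, two possible vectors for the remaining points -/
def Good2 (n a c : ℕ) : Prop :=
  ∀ (m τ b ε cf cf' t : ℕ) (X : ℝ), (n : ℝ) - 6 * √(n : ℝ) + 10 ≤ m → τ ≤ 2 * a →
    ((b = 2 * m ∧ ε = 1 ∧ cf = c ∧ cf' = 1) ∨ (b = 2 * m + 1 ∧ ε = 0 ∧ cf = 0 ∧ cf' = 0)) →
    |X| ≤ 2 * √(n : ℝ) / 3 + 9 / 4 →
    2 * ((b : ℝ) + 1) * X - 1 - 4 * ((τ : ℝ) - a) * ε + cf ≤ 8 * t →
    (1 ≤ τ → 2 * ((b : ℝ) + 1) * X - 1 - 4 * (((τ - 1 : ℕ) : ℝ) - a) * ε + cf' ≤ 8 * t) →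
    (∃ x0 x1 x2, x0 + x1 + x2 = a ∧ x1 + 2 * x2 = τ ∧ Hyp a b c n t x0 x1 x2 X) ∨
    (1 ≤ τ ∧ ∃ x0 x1 x2, x0 + x1 + x2 = a ∧ x1 + 2 * x2 = τ - 1 ∧ Hyp a b c n t x0 x1 x2 X)

/-- the conclusion for the last part of the range of `τ` -/
def Good3 (n a c : ℕ) : Prop :=
  ∀ (m τ b t : ℕ) (X : ℝ), (n : ℝ) - 6 * √(n : ℝ) + 10 ≤ m → τ ≤ 2 * a → 2 * a ≤ τ + c →
    b = 2 * m + 1 → |X| ≤ 2 * √(n : ℝ) / 3 + 9 / 4 →
    2 * ((b : ℝ) + 1) * X - 1 ≤ 8 * t →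
    ∃ x0 x1 x2, x0 + x1 + x2 = a ∧ x1 + 2 * x2 = τ ∧ Hyp a b c n t x0 x1 x2 X

theorem chk2_sound {n a c sL : ℕ} (h : chk2 n a c sL = true) : n = 4 * a + c ∧ Good2 n a c ∧ Good3 n a c := by
  unfold chk2 at h
  simp only [Bool.and_eq_true, Nat.beq_eq, Nat.ble_eq, List.all_eq_true, List.mem_range] at h
  obtain ⟨⟨⟨⟨h1, h2⟩, h3⟩, h4⟩, h5⟩ := h
  obtain ⟨s, hs⟩ : ∃ s : ℝ, s = √(n : ℝ) := ⟨_, rfl⟩
  have hn0 : (0 : ℝ) ≤ n := Nat.cast_nonneg n
  have hss : s ^ 2 = n := by rw [hs]; exact Real.sq_sqrt hn0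
  have hs0 : 0 ≤ s := by rw [hs]; exact Real.sqrt_nonneg _
  have hL : (sL : ℝ) ≤ 10000 * s := by
    have e1 : ((sL : ℝ)) ^ 2 ≤ (10000 * s) ^ 2 := by
      have : ((sL * sL : ℕ) : ℝ) ≤ ((n * 100000000 : ℕ) : ℝ) := by exact_mod_cast h2
      push_cast at this
      rw [mul_pow, hss]
      nlinarith
    exact le_of_sq_le_sq e1 (by positivity)
  have hU : 10000 * s ≤ sL + 1 := by
    have e1 : (10000 * s) ^ 2 ≤ ((sL : ℝ) + 1) ^ 2 := by
      have : ((n * 100000000 : ℕ) : ℝ) ≤ (((sL + 1) * (sL + 1) : ℕ) : ℝ) := by exact_mod_cast h3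
      push_cast at this
      rw [mul_pow, hss]
      nlinarith
    exact le_of_sq_le_sq e1 (by positivity)
  have hRE : ((max (36 * sL) (60000 * n - 8 * (sL + 1) - 540000 - 120000 * (n % 4)) : ℕ) : ℝ) ≤
      120000 * RE n := by
    rw [Nat.cast_max]
    have hnn : 0 ≤ 120000 * RE n := by
      have : 3 * √(n : ℝ) ≤ RE n := le_max_left _ _
      have := Real.sqrt_nonneg (n : ℝ)
      linarith
    refine max_le ?_ ?_
    · have : 3 * √(n : ℝ) ≤ RE n := le_max_left _ _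
      rw [← hs] at this
      push_cast
      linarith
    · have h6 : (n : ℝ) / 2 - 2 * √(n : ℝ) / 3 - 9 / 2 - ((n % 4 : ℕ) : ℝ) ≤ RE n := le_max_right _ _
      rw [← hs] at h6
      rw [Nat.sub_sub, Nat.sub_sub]
      refine cast_sub_le _ _ hnn ?_
      push_cast at h6 ⊢
      linarith
  have hRS : ((max (36 * sL) (60000 * n - 8 * (sL + 1) - 60000) : ℕ) : ℝ) ≤ 120000 * RS n := by
    rw [Nat.cast_max]
    have hnn : 0 ≤ 120000 * RS n := by
      have : 3 * √(n : ℝ) ≤ RS n := le_max_left _ _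
      have := Real.sqrt_nonneg (n : ℝ)
      linarith
    refine max_le ?_ ?_
    · have : 3 * √(n : ℝ) ≤ RS n := le_max_left _ _
      rw [← hs] at this
      push_cast
      linarith
    · have h6 : (n : ℝ) / 2 - 2 * √(n : ℝ) / 3 - 1 / 2 ≤ RS n := le_max_right _ _
      rw [← hs] at h6
      rw [Nat.sub_sub]
      refine cast_sub_le _ _ hnn ?_
      push_cast at h6 ⊢
      linarith
  have hm0 : ∀ m : ℕ, (n : ℝ) - 6 * √(n : ℝ) + 10 ≤ m → n + 10 - 6 * (sL + 1) / 10000 ≤ m := by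
    intro m hm
    rw [← hs] at hm
    have e1 : (((n + 10) * 10000 : ℕ) : ℝ) ≤ ((10000 * m + 6 * (sL + 1) : ℕ) : ℝ) := by
      push_cast
      linarith
    have e2 : (n + 10) * 10000 ≤ 10000 * m + 6 * (sL + 1) := by exact_mod_cast e1
    omega
  have hX3 : ∀ X : ℝ, |X| ≤ 2 * √(n : ℝ) / 3 + 9 / 4 → 120000 * X ≤ ((8 * (sL + 1) + 270000 : ℕ) : ℝ) ∧
      ((SH - (8 * (sL + 1) + 270000) : ℕ) : ℝ) ≤ 120000 * X + 2880000 := by
    intro X hX
    rw [← hs] at hX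
    obtain ⟨hX1, hX2⟩ := abs_le.1 hX
    constructor
    · push_cast
      linarith
    · rw [Nat.cast_sub h4]
      push_cast
      linarith
  refine ⟨h1, ?_, ?_⟩
  · intro m τ b ε cf cf' t X hm hτ hb hX hD hD'
    obtain ⟨g1, g2⟩ := hX3 X hX
    have hm1 := hm0 m hm
    have hr := h5 τ (by omega)
    by_cases hτ0 : τ = 0
    · left
      have hb0 : Nat.beq τ 0 = true := by rw [Nat.beq_eq]; exact hτ0
      have hb1 : (Nat.beq τ 0 || Nat.ble (2 * a) (τ + c)) = true := by rw [hb0]; rfl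
      rw [if_pos hτ0, if_pos hb1] at hr
      rcases hb with ⟨rfl, rfl, rfl, rfl⟩ | ⟨rfl, rfl, rfl, rfl⟩
      · exact run_sound hRE hRS (by omega) (by omega) g1 hD 8 _ g2 hr.1
      · exact run_sound hRE hRS (by omega) (by omega) g1 hD 8 _ g2 hr.2
    · have hτ1 : 1 ≤ τ := Nat.one_le_iff_ne_zero.2 hτ0
      rw [if_neg hτ0] at hr
      rcases hb with ⟨rfl, rfl, rfl, rfl⟩ | ⟨rfl, rfl, rfl, rfl⟩
      · have h6 := hr.1
        rcases run2_sound hRE hRS (by omega) (by omega) g1 hD (hD' hτ1) 8 _ g2 h6 with h | h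
        · exact Or.inl h
        · exact Or.inr ⟨hτ1, h⟩
      · have h6 := hr.2
        by_cases hc : (Nat.beq τ 0 || Nat.ble (2 * a) (τ + c)) = true
        · rw [if_pos hc] at h6
          exact Or.inl (run_sound hRE hRS (by omega) (by omega) g1 hD 8 _ g2 h6)
        · rw [if_neg hc] at h6
          rcases run2_sound hRE hRS (by omega) (by omega) g1 hD (hD' hτ1) 8 _ g2 h6 with h | h
          · exact Or.inl h
          · exact Or.inr ⟨hτ1, h⟩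
  · intro m τ b t X hm hτ hτ2 hb hX hD
    obtain ⟨g1, g2⟩ := hX3 X hX
    have hm1 := hm0 m hm
    have hr := (h5 τ (by omega)).2
    have hc : (Nat.beq τ 0 || Nat.ble (2 * a) (τ + c)) = true := by
      rw [Bool.or_eq_true, Nat.ble_eq]
      exact Or.inr hτ2
    rw [if_pos hc] at hr
    subst hb
    refine run_sound hRE hRS (by omega) (by omega) g1 ?_ 8 _ g2 hr
    push_cast at hD ⊢
    linarith

set_option maxRecDepth 100000 in
theorem chk_69 : chk2 69 16 5 (Nat.sqrt (69 * 100000000)) = true := by decide +kernel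

end Pool.Agent.X167.NU
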