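import Mathlib.Data.Nat.Sqrt

/-! The checker: definitions. All numbers are natural numbers, lengths are scaled by `120000`. -/

namespace Pool.Agent.X167.NU

/-- the scale -/
abbrev LL : ℕ := 120000
/-- the shift -/
abbrev SH : ℕ := 2880000

/-- the number of conditions for the side `01`, checked at the left end `lo` -/
def dt01 (a cf B0 τ ε x2 pp qq i lo : ℕ) : Bool :=
  (Nat.ble pp (2 * qq) && Nat.blt (x2 * (pp * ε)) (2 * i + x2 * ((2 * qq - pp) * B0))) ||
  (Nat.ble (SH + 2 * (pp - 2 * qq) * LL) lo &&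
    Nat.blt (4 * x2 * pp * ε * LL + x2 * (1 + 4 * τ * ε) * LL)
      (2 * x2 * B0 * (lo - SH - 2 * (pp - 2 * qq) * LL) + x2 * (4 * a * ε + cf) * LL + 8 * i * LL))

/-- the number of conditions for the side `10`, checked at the left end `lo` -/
def dt10 (a cf B0 τ ε x2 j lo : ℕ) : Bool :=
  (Nat.ble (2 * j) x2 && Nat.ble (2 * j) ((x2 - 2 * j) * B0 + x2 * ε)) ||
  (Nat.ble (SH + 2 * (2 * j - x2) * LL) lo &&
    Nat.ble ((8 * j + 1 + 4 * τ * ε) * LL)
      (2 * B0 * (lo - SH - 2 * (2 * j - x2) * LL) + (4 * a * ε + cf + 4 * x2 * ε) * LL))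

/-- the new right end for the side `10`, `0` if it fails -/
def side10 (a c cf RE RS B0 τ ε x0 x1 x2 lo : ℕ) : ℕ :=
  if Nat.blt (4 * (x0 - x0 / 2) * LL + (2 * x1 + c) * LL + SH) (RS + lo) then
    RE + SH + 4 * x2 * LL - (2 * x1 + c) * LL
  else
    let r := (lo - SH) / (2 * LL)
    let f := fun j : ℕ => if Nat.ble j a && dt10 a cf B0 τ ε x2 j lo then
      RE + SH + 4 * j * LL - (2 * x1 + c) * LL - 4 * x2 * LL else 0
    max (f ((x2 + r) / 2)) (f ((x2 + r - 1) / 2))

/-- the new right end for the side `01`, `0` if it fails -/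
def side01 (a c cf RE RS B0 τ ε x0 x1 x2 lo : ℕ) : ℕ :=
  let r := (lo - SH) / (2 * LL)
  let ps := (RS + lo - 1 - (2 * x1 + c) * LL - SH) / (4 * LL)
  let f := fun k : ℕ =>
    let u := x0 + r - k - x1
    let q := max ((u + 2) / 3) ((u - ps + 1) / 2)
    let i := x0 + x2 + r - k - 2 * q
    let p := i - x1 - x2
    if Nat.ble q x0 && Nat.ble x2 i && Nat.ble 1 i && Nat.ble i (x1 + x2 + p) && Nat.ble p q &&
      Nat.blt (4 * p * LL + (2 * x1 + c) * LL + SH) (RS + lo) &&
      dt01 a cf B0 τ ε x2 (x0 + (i - x2)) (x0 - q) i lo then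
      RE + SH + (2 * x1 + 4 * (q + i)) * LL - (4 * a + c) * LL else 0
  max (f 0) (max (f 1) (f 2))

/-- the new right end, `0` if it fails -/
def stp (a c cf RE RS B0 τ ε x1 lo : ℕ) : ℕ :=
  let x2 := (τ - x1) / 2
  let x0 := a - x1 - x2
  if Nat.beq (x1 + 2 * x2) τ && Nat.beq (x0 + x1 + x2) a &&
      Nat.blt ((2 * x1 + c) * LL + SH) (RS + lo) then
    let h := RE + SH - (2 * x1 + c) * LL
    if Nat.beq x0 0 || Nat.beq x2 0 then h
    else min h (min (side10 a c cf RE RS B0 τ ε x0 x1 x2 lo) (side01 a c cf RE RS B0 τ ε x0 x1 x2 lo))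
  else 0

/-- the greedy run over the window -/
def run (a c cf RE RS B0 τ ε th : ℕ) : ℕ → ℕ → Bool
  | 0, _ => false
  | f + 1, lo => Nat.blt (th + SH) lo ||
      (let h1 := stp a c cf RE RS B0 τ ε (if Nat.ble τ a then τ else 2 * a - τ) lo
       let h := if Nat.blt (th + SH) h1 then h1 else max h1 (stp a c cf RE RS B0 τ ε (τ % 2) lo)
       Nat.blt lo h && run a c cf RE RS B0 τ ε th f h)

/-- the greedy run over the window with two possible vectors for the remaining points -/
def run2 (a c cf cf' RE RS B0 τ ε th : ℕ) : ℕ → ℕ → Bool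
  | 0, _ => false
  | f + 1, lo => Nat.blt (th + SH) lo ||
      (let h := max (max (stp a c cf RE RS B0 τ ε (if Nat.ble τ a then τ else 2 * a - τ) lo)
                  (stp a c cf RE RS B0 τ ε (τ % 2) lo))
                (max (stp a c cf' RE RS B0 (τ - 1) ε (if Nat.ble (τ - 1) a then τ - 1 else 2 * a - (τ - 1)) lo)
                  (stp a c cf' RE RS B0 (τ - 1) ε ((τ - 1) % 2) lo))
       Nat.blt lo h && run2 a c cf cf' RE RS B0 τ ε th f h)

/-- the check for one number of points -/
def chk (n a c sL : ℕ) : Bool :=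
  let sU := sL + 1
  let r := n % 4
  let RE := max (36 * sL) (60000 * n - 8 * sU - 540000 - 120000 * r)
  let RS := max (36 * sL) (60000 * n - 8 * sU - 60000)
  let th := 8 * sU + 270000
  let m0 := n + 10 - 6 * sU / 10000
  Nat.beq n (4 * a + c) && Nat.ble (sL * sL) (n * 100000000) && Nat.ble (n * 100000000) (sU * sU) &&
    Nat.ble th SH &&
    (List.range (2 * a + 1)).all fun τ =>
      run a c c RE RS (2 * m0 + 1) τ 1 th 8 (SH - th) &&
      run a c 0 RE RS (2 * m0 + 2) τ 0 th 8 (SH - th)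

/-- the check for one number of points with two possible vectors for the remaining points; in the
last part of the range of `τ` only the first one is allowed -/
def chk2 (n a c sL : ℕ) : Bool :=
  let sU := sL + 1
  let r := n % 4
  let RE := max (36 * sL) (60000 * n - 8 * sU - 540000 - 120000 * r)
  let RS := max (36 * sL) (60000 * n - 8 * sU - 60000)
  let th := 8 * sU + 270000
  let m0 := n + 10 - 6 * sU / 10000
  Nat.beq n (4 * a + c) && Nat.ble (sL * sL) (n * 100000000) && Nat.ble (n * 100000000) (sU * sU) &&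
    Nat.ble th SH &&
    (List.range (2 * a + 1)).all fun τ =>
      (if Nat.beq τ 0 then run a c c RE RS (2 * m0 + 1) τ 1 th 8 (SH - th)
       else run2 a c c 1 RE RS (2 * m0 + 1) τ 1 th 8 (SH - th)) &&
      (if Nat.beq τ 0 || Nat.ble (2 * a) (τ + c) then run a c 0 RE RS (2 * m0 + 2) τ 0 th 8 (SH - th)
       else run2 a c 0 0 RE RS (2 * m0 + 2) τ 0 th 8 (SH - th))

/-- the check for a range of numbers of points -/
def chkR (n0 k : ℕ) : Bool :=
  (List.range k).all fun i =>
    let n := n0 + i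
    let c := if Nat.beq (n % 4) 1 then 5 else n % 4
    Nat.beq n 69 || chk n ((n - c) / 4) c (Nat.sqrt (n * 100000000))

end Pool.Agent.X167.NU
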