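import Pool.Agent.H15.G.R_seed8.TH2.NU.Multi

/-! Bounds for the number of missing conditions, for multisets of multiplicities: lowering, simple
points, chords and doubling. -/

namespace Pool.Agent.X167.NU

open Finset Pool.Agent.TH176.Nag Pool.Agent.TH603.Sur Pool.Agent.TH763.DB Pool.Agent.TH2.NU Module
  Pool.Agent.TH641.UM

/-- smaller multiplicities, fewer exponents -/
theorem Emp_lower {ι : Type} [Fintype ι] {v w : ι → ℕ} (hvw : ∀ i, v i ≤ w i) {T : Finset (ℤ × ℤ)}
    (h : Emp w (↑T : Set (ℤ × ℤ))) :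
    ∃ T' ⊆ T, T.card + cond v ≤ T'.card + cond w ∧ Emp v (↑T' : Set (ℤ × ℤ)) := by
  classical
  obtain ⟨K, _, _, x, y, hx, hy, hf⟩ := h
  let φ : ((ℤ × ℤ) →₀ K) →ₗ[K] ((Σ i : ι, {p : ℕ × ℕ // p ∈ FF (v i) (w i)}) → K) :=
    { toFun := fun f j => pr f (x j.1) (y j.1) (fun u => u.1 ^ (j.2 : ℕ × ℕ).1 * u.2 ^ (j.2 : ℕ × ℕ).2)
      map_add' := by
        intro f g
        funext a
        exact pr_add_left' _ _ _ _ _
      map_smul' := by
        intro c f
        funext a
        exact pr_smul_left _ _ _ _ _ }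
  have hinj : Sys T x y v ⊓ LinearMap.ker φ = ⊥ := by
    rw [eq_bot_iff]
    rintro f ⟨⟨hf1, hf2⟩, hf3⟩
    rw [Submodule.mem_bot]
    apply hf f
    · have := (Finsupp.mem_supported K f).1 hf1
      exact this
    · intro i
      apply LM_of_mono
      intro a c hac
      rw [SetLike.mem_coe, Submodule.mem_iInf] at hf2
      by_cases hv : a + c < v i
      · exact (mem_Mul.1 (hf2 i)) _ (mem_PF_mono hv)
      · rw [SetLike.mem_coe, LinearMap.mem_ker] at hf3
        exact congrFun hf3 ⟨i, ⟨(a, c), mem_FF.2 ⟨by simp only; omega, hac⟩⟩⟩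
  have hfd : FiniteDimensional K ↥(Finsupp.supported K K (↑T : Set (ℤ × ℤ))) := by
    rw [Finsupp.supported_eq_span_single]
    exact FiniteDimensional.span_of_finite K ((T.finite_toSet).image _)
  have hfd' : FiniteDimensional K ↥(Sys T x y v) := Submodule.finiteDimensional_of_le inf_le_left
  have hle : finrank K ↥(Sys T x y v) ≤ Fintype.card (Σ i : ι, {p : ℕ × ℕ // p ∈ FF (v i) (w i)}) := by
    have h1 := LinearMap.finrank_le_finrank_of_injective (f := φ.domRestrict (Sys T x y v)) (by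
      rw [injective_iff_map_eq_zero]
      intro g hg
      have h2 : (g : (ℤ × ℤ) →₀ K) ∈ Sys T x y v ⊓ LinearMap.ker φ := ⟨g.2, by
        rw [SetLike.mem_coe, LinearMap.mem_ker]; exact hg⟩
      rw [hinj] at h2
      exact Subtype.ext ((Submodule.mem_bot K).1 h2))
    rwa [Module.finrank_fintype_fun_eq_card] at h1
  have hcard : Fintype.card (Σ i : ι, {p : ℕ × ℕ // p ∈ FF (v i) (w i)}) + cond v = cond w := by
    rw [Fintype.card_sigma]
    unfold Pool.Agent.TH603.Sur.cond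
    rw [← sum_add_distrib]
    refine sum_congr rfl fun i _ => ?_
    rw [Fintype.card_coe]
    exact card_FF (hvw i)
  obtain ⟨r, hr⟩ : ∃ r, r = Fintype.card (Σ i : ι, {p : ℕ × ℕ // p ∈ FF (v i) (w i)}) := ⟨_, rfl⟩
  rw [← hr] at hcard hle
  have hle2 : finrank K ↥(Sys T x y v) ≤ min r T.card := by
    refine le_min hle ?_
    rw [← finrank_supp (K := K) T]
    exact Submodule.finrank_mono inf_le_left
  obtain ⟨T', hT'T, hT'c, hT'⟩ := exists_sub T (⨅ i, Mul (x i) (y i) (v i)) hle2 (min_le_right _ _)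
  refine ⟨T', hT'T, by omega, K, inferInstance, inferInstance, x, y, hx, hy, ?_⟩
  intro f hf1 hf2
  have h3 : f ∈ Finsupp.supported K K (↑T' : Set (ℤ × ℤ)) ⊓ ⨅ i, Mul (x i) (y i) (v i) := by
    refine ⟨(Finsupp.mem_supported K f).2 hf1, ?_⟩
    rw [SetLike.mem_coe, Submodule.mem_iInf]
    exact hf2
  rw [hT'] at h3
  exact (Submodule.mem_bot K).1 h3

/-- at most `c` conditions are missing: emptiness on all but `c` exponents -/
def DL (M : Multiset ℕ) (S : Finset (ℤ × ℤ)) (c : ℕ) : Prop :=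
  ∃ T ⊆ S, S.card ≤ T.card + c ∧ EmpM M (↑T : Set (ℤ × ℤ))

theorem DL.le {M : Multiset ℕ} {S : Finset (ℤ × ℤ)} {c c' : ℕ} (h : DL M S c) (hc : c ≤ c') : DL M S c' := by
  obtain ⟨T, h1, h2, h3⟩ := h
  exact ⟨T, h1, by omega, h3⟩

theorem DL_of_EmpM {M : Multiset ℕ} {S : Finset (ℤ × ℤ)} (h : EmpM M (↑S : Set (ℤ × ℤ))) : DL M S 0 :=
  ⟨S, Subset.refl _, by omega, h⟩

theorem DL.emp {M : Multiset ℕ} {S : Finset (ℤ × ℤ)} (h : DL M S 0) : EmpM M (↑S : Set (ℤ × ℤ)) := by
  obtain ⟨T, h1, h2, h3⟩ := h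
  have : T = S := eq_of_subset_of_card_le h1 (by omega)
  rwa [this] at h3

theorem DL_of_SurM {M : Multiset ℕ} {S : Finset (ℤ × ℤ)} {c : ℕ} (h : SurM M (↑S : Set (ℤ × ℤ)))
    (hc : S.card ≤ TH2.NU.condM M + c) : DL M S c := by
  obtain ⟨T, h1, h2, h3⟩ := h
  rw [cond_condM, ms_toList] at h2
  exact ⟨T, fun u hu => mem_coe.1 (h1 (mem_coe.2 hu)), by omega, h3⟩

theorem EmpM_empty (M : Multiset ℕ) : EmpM M (∅ : Set (ℤ × ℤ)) := by
  refine ⟨ℚ, inferInstance, inferInstance, fun _ => 1, fun _ => 1, fun _ => one_ne_zero,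
    fun _ => one_ne_zero, fun f hf _ => ?_⟩
  rw [← Finsupp.support_eq_empty, Finset.eq_empty_iff_forall_notMem]
  intro m hm
  exact hf (mem_coe.2 hm)

/-- the sign theorem from the bound -/
theorem sgn_of_DL {M : Multiset ℕ} {S : Finset (ℤ × ℤ)} {t : ℕ} (h : DL M S t)
    (ht : t = S.card - TH2.NU.condM M) :
    (S.card ≤ TH2.NU.condM M → EmpM M (↑S : Set (ℤ × ℤ))) ∧
      (TH2.NU.condM M ≤ S.card → SurM M (↑S : Set (ℤ × ℤ))) := by
  constructor
  · intro hc
    have : t = 0 := by omega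
    rw [this] at h
    exact h.emp
  · intro hc
    obtain ⟨T, h1, h2, h3⟩ := h
    obtain ⟨T', h4, h5⟩ := exists_subset_card_eq (s := T) (n := TH2.NU.condM M) (by omega)
    refine ⟨T', ?_, ?_, ?_⟩
    · exact_mod_cast (h4.trans h1)
    · rw [cond_condM, ms_toList]; exact h5
    · exact h3.mono_set (by exact_mod_cast h4)

theorem EmpM_sum {M : Multiset ℕ} {a b : ℕ} {S : Set (ℤ × ℤ)} : EmpM (a • {b} + M) S ↔
    Emp (Sum.elim (fun _ : Fin a => b) fun i : Fin M.toList.length => M.toList.get i) S :=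
  EmpM_iff (by rw [ms_sum, ms_fin, ms_toList]) _

theorem EmpM_sum' {M : Multiset ℕ} {a b : ℕ} {S : Set (ℤ × ℤ)} : EmpM (a • {b} + M) S ↔
    Emp (Sum.elim (fun i : Fin M.toList.length => M.toList.get i) (fun _ : Fin a => b)) S :=
  EmpM_iff (by rw [ms_sum, ms_fin, ms_toList, add_comm]) _

/-- raising multiplicities -/
theorem DL.raise {a b b' : ℕ} (hb : b ≤ b') {M : Multiset ℕ} {S : Finset (ℤ × ℤ)} {c : ℕ}
    (h : DL (a • {b} + M) S c) : DL (a • {b'} + M) S c := by
  obtain ⟨T, h1, h2, h3⟩ := h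
  exact ⟨T, h1, h2, EmpM.raise hb h3⟩

theorem choose_succ (b : ℕ) : (b + 1 + 1).choose 2 = (b + 1).choose 2 + (b + 1) := by
  show (b + 1 + 1).choose (1 + 1) = (b + 1).choose (1 + 1) + (b + 1)
  rw [Nat.choose_succ_succ' (b + 1) 1, Nat.choose_one_right]
  omega

/-- lowering multiplicities -/
theorem DL.lower {a b : ℕ} {M : Multiset ℕ} {S : Finset (ℤ × ℤ)} {c : ℕ}
    (h : DL (a • {b + 1} + M) S c) : DL (a • {b} + M) S (c + a * (b + 1)) := by
  obtain ⟨T, h1, h2, h3⟩ := h
  obtain ⟨T', h4, h5, h6⟩ := Emp_lower (v := Sum.elim (fun _ : Fin a => b) fun i : Fin M.toList.length => M.toList.get i)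
    (by rintro (i | i) <;> simp) (EmpM_sum.1 h3)
  refine ⟨T', h4.trans h1, ?_, EmpM_sum.2 h6⟩
  rw [cond_sum', cond_sum', choose_succ, mul_add] at h5
  omega

/-- adding simple points -/
theorem DL.add_ones {M : Multiset ℕ} {S : Finset (ℤ × ℤ)} {c : ℕ} (h : DL M S c) (t : ℕ) :
    DL (t • {1} + M) S (c - t) := by
  classical
  obtain ⟨T, h1, h2, h3⟩ := h
  obtain ⟨U, hU, hUc⟩ := exists_subset_card_eq (s := S \ T) (n := min t (S \ T).card) (min_le_right _ _)
  have h4 := Emp_union h3 U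
  have hdisj : Disjoint T U := by
    refine disjoint_left.2 fun z hz hz' => ?_
    exact (mem_sdiff.1 (hU hz')).2 hz
  have hcard : (T ∪ U).card = T.card + U.card := card_union_of_disjoint hdisj
  have hS : (S \ T).card + T.card = S.card := card_sdiff_add_card_eq_card h1
  refine ⟨T ∪ U, union_subset h1 (hU.trans sdiff_subset), by omega, ?_⟩
  rw [EmpM_sum']
  have hUt : U.card ≤ t := by omega
  refine Emp_emb (Sum.map id (Fin.castLE hUt)) ?_ ?_ h4
  · exact Sum.map_injective.2 ⟨Function.injective_id, Fin.castLE_injective hUt⟩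
  · rintro (i | i) <;> simp

/-- removing simple points -/
theorem DL.drop_ones {M : Multiset ℕ} {S : Finset (ℤ × ℤ)} {c t : ℕ} (h : DL (t • {1} + M) S c) :
    DL M S (c + t) := by
  classical
  obtain ⟨T, h1, h2, h3⟩ := h
  rw [EmpM_sum'] at h3
  have key : ∀ (t : ℕ) (T : Finset (ℤ × ℤ)), T ⊆ S →
      Emp (Sum.elim (fun i : Fin M.toList.length => M.toList.get i) (fun _ : Fin t => 1))
        (↑T : Set (ℤ × ℤ)) →
      ∃ T' ⊆ S, T.card ≤ T'.card + t ∧ EmpM M (↑T' : Set (ℤ × ℤ)) := by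
    intro t
    induction t with
    | zero =>
      intro T hT h
      rw [Emp_zero_iff] at h
      exact ⟨T, hT, by omega, h⟩
    | succ t ih =>
      intro T hT h
      rcases T.eq_empty_or_nonempty with rfl | hne
      · refine ⟨∅, empty_subset _, by simp, ?_⟩
        rw [coe_empty]
        exact EmpM_empty M
      · obtain ⟨m, hm, h5⟩ := Emp_erase hne h
        obtain ⟨T', h6, h7, h8⟩ := ih (T.erase m) ((erase_subset _ _).trans hT) h5
        refine ⟨T', h6, ?_, h8⟩
        rw [card_erase_of_mem hm] at h7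
        omega
  obtain ⟨T', h4, h5, h6⟩ := key t T h1 h3
  exact ⟨T', h4, by omega, h6⟩

/-- exact clusters -/
theorem DL.exact {a b : ℕ} (hb : 1 ≤ b) {M : Multiset ℕ} {S : Finset (ℤ × ℤ)} {c : ℕ}
    (h : DL (a • {b} + M) S c) : DL (a • r4 b + M) S c := by
  obtain ⟨T, h1, h2, h3⟩ := h
  exact ⟨T, h1, h2, exM hb h3⟩

/-- the chord, ending at `0` -/
theorem chord0 {j r b : ℕ} (hN : 0 < j + r) {M : Multiset ℕ} {S : Finset (ℤ × ℤ)}
    (hpos : ∀ u ∈ S, 0 ≤ u.1 ∧ 0 ≤ u.2) {c0 c : ℕ} (h1 : DL ((j + r) • {b} + M) S c0)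
    (h2 : EmpM ((j + r) • {b + 1} + M) (↑S : Set (ℤ × ℤ))) (hc : r * c0 < (j + r) * (c + 1)) :
    DL (j • {b + 1} + (r • {b} + M)) S c := by
  classical
  obtain ⟨T, hT1, hT2, hT3⟩ := h1
  have hTS : T.card ≤ S.card := card_le_card hT1
  obtain ⟨K, _, _, x, y, x', y', hx, hy, hx', hy', hJ⟩ := exists_confB (e := fun i : Fin M.toList.length => M.toList.get i)
    hN hpos (c0 := S.card - T.card) ⟨T, hT1, by omega, EmpM_sum.1 hT3⟩ (EmpM_sum.1 h2)
  obtain ⟨J, hJdef⟩ : ∃ J : Finset (Fin (j + r)), J = univ.filter fun i : Fin (j + r) => (i : ℕ) < j := ⟨_, rfl⟩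
  have hJc : J.card = j := by
    have : J = (univ : Finset (Fin j)).map (Fin.castLEEmb (Nat.le_add_right j r)) := by
      ext i
      simp only [hJdef, mem_filter, mem_univ, true_and, mem_map, Fin.castLEEmb_apply]
      constructor
      · intro hi
        exact ⟨⟨i, hi⟩, rfl⟩
      · rintro ⟨k, rfl⟩
        exact k.2
    rw [this, card_map, card_univ, Fintype.card_fin]
  have h3 := hJ J
  rw [hJc, Nat.add_sub_cancel_left] at h3
  have h4 : finrank K ↥(Sys S (Sum.elim x x') (Sum.elim y y')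
        (Sum.elim (fun i => b + if i ∈ J then 1 else 0) (fun i : Fin M.toList.length => M.toList.get i))) ≤ c := by
    by_contra hcon
    push Not at hcon
    have a1 : (j + r) * (c + 1) ≤ (j + r) * finrank K ↥(Sys S (Sum.elim x x') (Sum.elim y y')
        (Sum.elim (fun i => b + if i ∈ J then 1 else 0) (fun i : Fin M.toList.length => M.toList.get i))) :=
      Nat.mul_le_mul_left _ hcon
    have a2 : r * (S.card - T.card) ≤ r * c0 := Nat.mul_le_mul_left _ (by omega)
    omega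
  have h5 := le_min h4 (show finrank K ↥(Sys S (Sum.elim x x') (Sum.elim y y')
        (Sum.elim (fun i => b + if i ∈ J then 1 else 0) (fun i : Fin M.toList.length => M.toList.get i))) ≤ S.card by
      have := fd_supp (K := K) S
      rw [← finrank_supp (K := K) S]
      exact Submodule.finrank_mono inf_le_left)
  obtain ⟨T', hT'1, hT'2, hT'3⟩ := exists_sub S _ h5 (min_le_right _ _)
  refine ⟨T', hT'1, by omega, ?_⟩
  have hE : Emp (Sum.elim (fun i => b + if i ∈ J then 1 else 0) (fun i : Fin M.toList.length => M.toList.get i))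
      (↑T' : Set (ℤ × ℤ)) := by
    refine ⟨K, inferInstance, inferInstance, Sum.elim x x', Sum.elim y y', ?_, ?_, ?_⟩
    · rintro (i | i)
      · exact hx i
      · exact hx' i
    · rintro (i | i)
      · exact hy i
      · exact hy' i
    · intro f hf1 hf2
      have h6 : f ∈ Finsupp.supported K K (↑T' : Set (ℤ × ℤ)) ⊓
          ⨅ i, Mul (Sum.elim x x' i) (Sum.elim y y' i)
            (Sum.elim (fun i => b + if i ∈ J then 1 else 0) (fun i : Fin M.toList.length => M.toList.get i) i) := by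
        refine ⟨(Finsupp.mem_supported K f).2 hf1, ?_⟩
        rw [SetLike.mem_coe, Submodule.mem_iInf]
        exact hf2
      rw [hT'3] at h6
      exact (Submodule.mem_bot K).1 h6
  refine (EmpM_iff (w := Sum.elim (Sum.elim (fun _ : Fin j => b + 1) (fun _ : Fin r => b))
    (fun i : Fin M.toList.length => M.toList.get i))
    (by rw [ms_sum, ms_sum, ms_fin, ms_fin, ms_toList, add_assoc]) _).2 ?_
  refine Emp_emb (Sum.map finSumFinEquiv.symm id) (Sum.map_injective.2
    ⟨finSumFinEquiv.symm.injective, Function.injective_id⟩) ?_ hE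
  rintro (i | i)
  · obtain ⟨k, rfl⟩ := finSumFinEquiv.surjective i
    rcases k with k | k
    · simp only [Sum.elim_inl, Sum.map_inl, Equiv.symm_apply_apply]
      split_ifs <;> omega
    · simp only [Sum.elim_inl, Sum.map_inl, Equiv.symm_apply_apply, Sum.elim_inr]
      rw [if_neg]
      · omega
      · rw [hJdef, mem_filter]
        simp
  · simp

/-- the chord -/
theorem chord {j r b : ℕ} (hN : 0 < j + r) {M : Multiset ℕ} {S : Finset (ℤ × ℤ)}
    (hpos : ∀ u ∈ S, 0 ≤ u.1 ∧ 0 ≤ u.2) {c0 c1 c : ℕ} (h1 : DL ((j + r) • {b} + M) S c0)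
    (h2 : DL ((j + r) • {b + 1} + M) S c1) (hc : r * c0 + j * c1 < (j + r) * (c + 1)) :
    DL (j • {b + 1} + (r • {b} + M)) S c := by
  rcases le_or_gt c1 c0 with h | h
  · have a1 : (j + r) * c1 ≤ r * c0 + j * c1 := by
      have := Nat.mul_le_mul_left r h
      rw [add_mul]; omega
    have a2 : c1 < c + 1 := by
      have := a1.trans_lt hc
      exact Nat.lt_of_mul_lt_mul_left this
    have g1 := h1.add_ones c1
    have g2 := h2.add_ones c1
    rw [Nat.sub_self] at g2
    have e1 : ∀ k : ℕ, c1 • ({1} : Multiset ℕ) + ((j + r) • {k} + M) = (j + r) • {k} + (c1 • {1} + M) := by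
      intro k; abel
    rw [e1] at g1 g2
    have g3 := chord0 hN hpos g1 g2.emp (c := c - c1) (by
      obtain ⟨u, rfl⟩ := Nat.exists_eq_add_of_le h
      obtain ⟨v, rfl⟩ := Nat.exists_eq_add_of_le (show c1 ≤ c by omega)
      rw [Nat.add_sub_cancel_left, Nat.add_sub_cancel_left]
      nlinarith)
    have e2 : j • ({b + 1} : Multiset ℕ) + (r • {b} + (c1 • {1} + M)) =
        c1 • {1} + (j • {b + 1} + (r • {b} + M)) := by abel
    rw [e2] at g3
    exact g3.drop_ones.le (by omega)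
  · have a1 : (j + r) * c0 ≤ r * c0 + j * c1 := by
      have := Nat.mul_le_mul_left j h.le
      rw [add_mul]; omega
    have a2 : c0 < c + 1 := by
      have := a1.trans_lt hc
      exact Nat.lt_of_mul_lt_mul_left this
    rw [add_smul, add_assoc] at h1
    exact (h1.raise (Nat.le_succ b)).le (by omega)

/-- doubling, ending at `0` -/
theorem dbl0 {a b : ℕ} (ha : 0 < a) {M : Multiset ℕ} {S : Finset (ℤ × ℤ)}
    (hpos : ∀ u ∈ S, 0 ≤ u.1 ∧ 0 ≤ u.2) {c0 : ℕ} (h1 : DL (a • {b} + M) S c0)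
    (h2 : EmpM (a • {b + 1} + M) (↑S : Set (ℤ × ℤ))) (hc : c0 ≤ a * ((b + 1) / 2)) :
    EmpM (a • q4 b + M) (↑S : Set (ℤ × ℤ)) := by
  classical
  obtain ⟨T, hT1, hT2, hT3⟩ := h1
  have hTS : T.card ≤ S.card := card_le_card hT1
  obtain ⟨K, _, _, x, y, x', y', D, E, hx, hy, hx', hy', hDE, hfr⟩ :=
    cluHypB (II_sub b) (e := fun i : Fin M.toList.length => M.toList.get i) ha hpos
      (c0 := S.card - T.card) ⟨T, hT1, by omega, EmpM_sum.1 hT3⟩ (EmpM_sum.1 h2)
  rw [card_II, Nat.sub_eq_zero_of_le (by omega : S.card - T.card ≤ a * ((b + 1) / 2))] at hfr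
  have hform : Sys S x' y' (fun i : Fin M.toList.length => M.toList.get i) ⊓
      ⨅ i, CluB (x i) (y i) (D i) (E i) b (II b) =
      Finsupp.supported K K (↑S : Set (ℤ × ℤ)) ⊓
        ((⨅ j, Mul (x' j) (y' j) (M.toList.get j)) ⊓ ⨅ i, CluB (x i) (y i) (D i) (E i) b (II b)) := by
    unfold Sys
    rw [inf_assoc]
  have hfr' := hfr
  rw [hform] at hfr'
  obtain ⟨T', hT'S, hT'c, hT'⟩ := exists_sub S _ hfr' (Nat.zero_le _)
  have hTS' : T' = S := eq_of_subset_of_card_le hT'S (by omega)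
  rw [hTS', ← hform] at hT'
  have hE : Emp (Sum.elim (fun p : Fin a × (Fin 2 × Fin 2) => qv b p.2)
      (fun i : Fin M.toList.length => M.toList.get i)) (↑S : Set (ℤ × ℤ)) := by
    refine collideG (w := fun _ p => qv b p) {kl | kl.1 + kl.2 < b ∨ (kl.1 + kl.2 = b ∧ Odd kl.2)} ?_
      x y x' y' hx hy hx' hy' D E S ?_
    · rintro ⟨k, l⟩ hkl _ ⟨a, c⟩ p q h1 h2
      simp only [Set.mem_ofPred_eq] at hkl
      simp only at h1 h2
      unfold qv
      simp only
      have := a.2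
      have := c.2
      rcases hkl with hkl | ⟨hkl, i, hi⟩
      · omega
      · omega
    · rw [eq_bot_iff, ← hT']
      refine inf_le_inf_left _ (iInf_mono fun i f hf => ?_)
      simp only [Submodule.mem_iInf] at hf
      refine ⟨?_, ?_⟩
      · rw [SetLike.mem_coe, mem_Mul]
        apply LM_of_qq (hDE i)
        intro k l hkl
        exact hf (k, l) (Or.inl hkl)
      · unfold OdI
        rw [SetLike.mem_coe]
        simp only [Submodule.mem_iInf]
        intro k hk
        unfold II at hk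
        rw [mem_filter, mem_range] at hk
        exact hf (k, b - k) (Or.inr ⟨by simp only; omega, hk.2⟩)
  exact (EmpM_iff (by rw [ms_sum, ms_prod, ms_toList]; rfl) _).2 hE

/-- doubling -/
theorem DL.dbl {a b : ℕ} {M : Multiset ℕ} {S : Finset (ℤ × ℤ)}
    (hpos : ∀ u ∈ S, 0 ≤ u.1 ∧ 0 ≤ u.2) {c0 t : ℕ} (h1 : DL (a • {b} + M) S c0)
    (h2 : DL (a • {b + 1} + M) S t) (hc : c0 ≤ t + a * ((b + 1) / 2)) :
    DL (a • q4 b + M) S t := by
  rcases Nat.eq_zero_or_pos a with rfl | ha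
  · rw [zero_smul] at h2 ⊢
    exact h2
  have g1 := h1.add_ones t
  have g2 := h2.add_ones t
  rw [Nat.sub_self] at g2
  have e1 : ∀ k : ℕ, t • ({1} : Multiset ℕ) + (a • {k} + M) = a • {k} + (t • {1} + M) := by
    intro k; abel
  rw [e1] at g1 g2
  have g3 := DL_of_EmpM (dbl0 ha hpos g1 g2.emp (by omega))
  have e2 : a • q4 b + (t • ({1} : Multiset ℕ) + M) = t • {1} + (a • q4 b + M) := by abel
  rw [e2] at g3
  exact g3.drop_ones.le (by omega)

end Pool.Agent.X167.NU
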