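import Pool.Agent.H15.G.R_pool_sql_team_seeded_64922ed1.X167.NU.Crit
import Pool.Agent.H15.G.R_seed8.TH760.EN.Asm

/-! The small triangles for `c` equal points, and for five points with multiplicities
`e, e, e, e, e + 1`. -/

namespace Pool.Agent.X167.NU

open Finset Pool.Agent.TH176.Nag Pool.Agent.TH603.Sur Pool.Agent.TH763.DB Pool.Agent.TH2.NU Module
  Pool.Agent.TH641.UM Pool.Agent.TH760.EN

theorem EmpM_c {c : ℕ} (h : HE c) (e : ℕ) : EmpM (c • {e}) (QE c (c * e)) := by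
  refine (EmpM_iff (w := fun _ : Fin c => e) (ms_fin c e) _).2 ((h e).mono ?_)
  rintro ⟨p, q⟩ ⟨h1, h2, h3⟩
  refine ⟨h1, h2, ?_⟩
  push_cast at h3
  simp only at h3 ⊢
  linarith

theorem SurM_c {c : ℕ} (h : HS c) {b e : ℕ} (hb : 2 * e ≤ b + 1) : SurM (c • {e}) (QI c b (c * e)) := by
  refine (SurM_iff (w := fun _ : Fin c => e) (ms_fin c e) _).2 ((h e).mono ?_)
  rintro ⟨p, q⟩ ⟨h1, h2, h3, h4⟩
  simp only at h1 h2 h3 h4
  refine ⟨h1, h2, ?_, ?_⟩
  · simp only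
    have : 2 * (e : ℤ) ≤ b + 1 := by exact_mod_cast hb
    omega
  · push_cast
    linarith

/-- the five multiplicities `e, e, e, e, e + 1` -/
def VM (e : ℕ) : Multiset ℕ := 4 • {e} + 1 • {e + 1}

theorem card_VM (e : ℕ) : (VM e).card = 5 := by
  unfold VM
  rw [Multiset.card_add, card_smul1, card_smul1]

theorem condM_VM (e : ℕ) : TH2.NU.condM (VM e) = 5 * (e + 1).choose 2 + (e + 1) := by
  unfold VM
  rw [condM_add, condM_smul, condM_smul, condM_single, condM_single, choose_succ]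
  ring

/-- the vector -/
def w5 (e : ℕ) : Fin 2 ⊕ Fin 3 → ℕ := Sum.elim (fun i : Fin 2 => e + (i : ℕ)) (fun _ => e)

theorem ms_w5 (e : ℕ) : ms (w5 e) = VM e := by
  unfold w5 VM
  rw [ms_sum, ms_fin]
  unfold ms
  rw [Fin.sum_univ_two]
  simp only [Fin.val_zero, Fin.val_one, add_zero, one_smul]
  have : (4 : ℕ) • ({e} : Multiset ℕ) = 3 • {e} + {e} := by
    rw [show (4 : ℕ) = 3 + 1 by norm_num, add_smul, one_smul]
  rw [this]
  abel

theorem mix_core (e : ℕ) {S : Set (ℤ × ℤ)} (hfin : S.Finite) (h0 : ∀ p ∈ S, 0 ≤ p.1 ∧ 0 ≤ p.2)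
    (hrow : ∀ (b : ℤ) (A : Finset ℤ), (∀ a ∈ A, ((a, b) : ℤ × ℤ) ∈ S ∧ 2 * (e : ℤ) + 1 ≤ 2 * a + b) →
      ∀ k : ℕ, k < A.card → 4 * (k : ℤ) + 3 * b < 6 * (e : ℤ)) :
    Emp (w5 e) S := by
  have hA : Emp (fun i : Fin 2 => e + (i : ℕ)) (S ∩ {p | 2 * p.1 + p.2 < 2 * (e : ℤ) + 1}) := by
    refine (Emp_rows (fun i : Fin 2 => e + (i : ℕ)) 0).comap 0 1 1 0 0 0 (by norm_num) ?_
    rintro ⟨x, y⟩ ⟨hp, hq⟩
    have h1 := h0 _ hp
    simp only [Set.mem_ofPred_eq] at h1 hq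
    obtain ⟨k, rfl⟩ := Int.eq_ofNat_of_zero_le h1.1
    refine ⟨by simp, by simp; omega, ?_⟩
    simp only [Fin.sum_univ_two, Fin.val_zero, Fin.val_one, add_zero, zero_mul, one_mul, zero_add,
      Int.toNat_natCast]
    omega
  have hB : Emp (fun _ : Fin 3 => e) (S ∩ {p | 2 * (e : ℤ) + 1 ≤ 2 * p.1 + p.2}) := by
    refine Pool.Agent.TH938.Q5.Emp_rows ?_ (Pool.Agent.TH641.EN.HE_three e)
    intro b A hA k hk
    have h4 := hrow b A (fun a ha => hA a ha) k hk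
    obtain ⟨a, ha⟩ := Finset.card_pos.1 (by omega : 0 < A.card)
    have h5 := h0 _ (hA a ha).1
    simp only at h5
    refine ⟨by simp, h5.2, ?_⟩
    push_cast
    omega
  have hC := Pool.Agent.TH698.NagT3.Emp_cut (hfin.subset Set.inter_subset_left)
    (hfin.subset Set.inter_subset_left) (fun p hp => h0 p hp.1) (fun p hp => h0 p hp.1) 2 1
    (fun p hp q hq => by
      have h6 := hp.2
      have h7 := hq.2
      simp only [Set.mem_ofPred_eq] at h6 h7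
      omega) hA hB
  refine hC.mono ?_
  intro p hp
  by_cases h8 : 2 * p.1 + p.2 < 2 * (e : ℤ) + 1
  · exact Or.inl ⟨hp, h8⟩
  · exact Or.inr ⟨hp, not_lt.1 h8⟩

theorem EmpM_mix (e : ℕ) : EmpM (VM e) (QE 5 (5 * e + 1)) := by
  refine (EmpM_iff (ms_w5 e) _).2 (mix_core e ?_ (fun p hp => ⟨hp.1, hp.2.1⟩) ?_)
  · refine (Finset.finite_toSet (Finset.Icc (0 : ℤ) (10 * e + 2) ×ˢ Finset.Icc (0 : ℤ) (10 * e + 2))).subset ?_
    rintro ⟨i, y⟩ ⟨h4, h5, h6⟩
    push_cast at h6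
    simp only at h4 h5 h6
    simp only [Finset.coe_product, Finset.coe_Icc, Set.mem_prod, Set.mem_Icc]
    omega
  · intro b A hA k hk
    have hsub : A ⊆ Finset.Icc ((2 * (e : ℤ) - b + 2) / 2) ((10 * (e : ℤ) + 2 - 5 * b - 1) / 4) := by
      intro a ha
      obtain ⟨⟨h4, h5, h6⟩, h7⟩ := hA a ha
      push_cast at h6
      simp only at h4 h5 h6
      rw [Finset.mem_Icc]
      omega
    have hc := Finset.card_le_card hsub
    rw [Int.card_Icc] at hc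
    omega

/-- the length of the row at height `2 e - v` -/
def rm (v : ℕ) : ℕ := (v + 2) / 2 + (3 * v + 3) / 4

theorem sum_rm (e : ℕ) : ∑ v ∈ Finset.range (2 * e + 1), rm v = 5 * (e + 1).choose 2 + (e + 1) := by
  induction e with
  | zero => rfl
  | succ e ih =>
    have h1 : (e + 1 + 1).choose 2 = (e + 1).choose 2 + (e + 1) := choose_succ e
    have h2 : rm (2 * e + 1) + rm (2 * e + 2) = 5 * (e + 1) + 1 := by
      unfold rm
      omega
    rw [show 2 * (e + 1) + 1 = 2 * e + 1 + 1 + 1 by ring, Finset.sum_range_succ, Finset.sum_range_succ, ih,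
      h1, add_assoc, show 2 * e + 1 + 1 = 2 * e + 2 by ring, h2]
    ring

/-- the test set -/
def TM (e : ℕ) : Finset (ℤ × ℤ) :=
  ((Finset.range (2 * e + 1)).sigma (fun v => Finset.range (rm v))).image
    (fun p : (_ : ℕ) × ℕ => (((p.2 : ℕ) : ℤ), 2 * (e : ℤ) - (p.1 : ℤ)))

theorem mem_TM {e : ℕ} {p : ℤ × ℤ} (hp : p ∈ TM e) : 0 ≤ p.1 ∧ 0 ≤ p.2 ∧ p.2 ≤ 2 * (e : ℤ) ∧
    p.1 < (2 * (e : ℤ) - p.2 + 2) / 2 + (3 * (2 * (e : ℤ) - p.2) + 3) / 4 := by
  unfold TM rm at hp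
  rw [Finset.mem_image] at hp
  obtain ⟨⟨z, i⟩, h1, rfl⟩ := hp
  simp only [Finset.mem_sigma, Finset.mem_range] at h1
  obtain ⟨h1, h2⟩ := h1
  simp only
  have e1 : 2 * (e : ℤ) - (2 * (e : ℤ) - (z : ℤ)) = z := by ring
  rw [e1]
  refine ⟨by omega, by omega, by omega, ?_⟩
  have h3 : ((i : ℕ) : ℤ) < (((z + 2) / 2 + (3 * z + 3) / 4 : ℕ) : ℤ) := by exact_mod_cast h2
  push_cast at h3
  exact h3

theorem card_TM (e : ℕ) : (TM e).card = 5 * (e + 1).choose 2 + (e + 1) := by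
  unfold TM
  rw [Finset.card_image_of_injective, Finset.card_sigma, ← sum_rm]
  · simp
  · rintro ⟨z, i⟩ ⟨z', i'⟩ h
    simp only [Prod.mk.injEq] at h
    obtain ⟨h1, h2⟩ := h
    obtain rfl : i = i' := by omega
    obtain rfl : z = z' := by omega
    rfl

theorem SurM_mix {b e : ℕ} (hb : 2 * e ≤ b) : SurM (VM e) (QI 5 b (5 * e + 1)) := by
  refine (SurM_iff (ms_w5 e) _).2 ⟨TM e, ?_, ?_, ?_⟩
  · intro p hp
    obtain ⟨h4, h5, h6, h7⟩ := mem_TM (Finset.mem_coe.1 hp)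
    have hbR : 2 * (e : ℤ) ≤ b := by exact_mod_cast hb
    refine ⟨h4, h5, by omega, ?_⟩
    push_cast
    omega
  · rw [card_TM, cond_condM, ms_w5, condM_VM]
  · refine mix_core e (Finset.finite_toSet _) (fun p hp => ?_) ?_
    · obtain ⟨h4, h5, h6, h7⟩ := mem_TM (Finset.mem_coe.1 hp)
      exact ⟨h4, h5⟩
    · intro b A hA k hk
      have hsub : A ⊆ Finset.Ico ((2 * (e : ℤ) - b + 2) / 2)
          ((2 * (e : ℤ) - b + 2) / 2 + (3 * (2 * (e : ℤ) - b) + 3) / 4) := by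
        intro a ha
        obtain ⟨h3, h8⟩ := hA a ha
        obtain ⟨h4, h5, h6, h7⟩ := mem_TM (Finset.mem_coe.1 h3)
        simp only at h4 h5 h6 h7
        rw [Finset.mem_Ico]
        omega
      have hc := Finset.card_le_card hsub
      rw [Int.card_Ico] at hc
      obtain ⟨a, ha⟩ := Finset.card_pos.1 (by omega : 0 < A.card)
      obtain ⟨h3, h8⟩ := hA a ha
      obtain ⟨h4, h5, h6, h7⟩ := mem_TM (Finset.mem_coe.1 h3)
      simp only at h4 h5 h6 h7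
      omega

end Pool.Agent.X167.NU
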